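import Pool.Agent.TH68.FR.Lim

/-!
# Frobenius groups of large prime exponent
-/

set_option autoImplicit false

namespace Pool.Agent.TH68.FR

open Pool.Agent.TH54.BU

theorem frob : ∃ (p : ℕ), p.Prime ∧ ∃ (G : Type) (_ : Group G) (F H : Subgroup G),
      IsPGroup p G ∧ F.Normal ∧ F ⊓ H = ⊥ ∧ F ⊔ H = ⊤ ∧ F ≠ ⊥ ∧ H ≠ ⊥ ∧
      (∀ g : G, g ∉ H → ∀ x : G, x ∈ H → g * x * g⁻¹ ∈ H → x = 1) ∧
      (∀ x : G, (x ∈ F ∧ x ≠ 1) ↔ ∀ g : G, g⁻¹ * x * g ∉ H) := by
  obtain ⟨p0, hp0⟩ := hnnStep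
  obtain ⟨p, hpp, hp⟩ := Nat.exists_infinite_primes p0
  have hs : HS p := fun A _ _ z χ h1 C X f h2 => hp0 p hp hpp A z χ h1 C X f h2
  have : Fact p.Prime := ⟨hp⟩
  obtain ⟨S0, t0, ht0, ht0'⟩ := base_ob hp hs
  obtain ⟨L, iL, z, x, χ, c, hF, hx, hχx, hc, hcz, hcχ, hconj⟩ := limit hp hs S0
  have hn : (Subgroup.zpowers z).Normal := by
    constructor
    rintro _ ⟨k, rfl⟩ g
    exact ⟨k, (hF.conj g k).symm⟩
  let G := L ⧸ Subgroup.zpowers z
  let π : L →* G := QuotientGroup.mk' _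
  have hπ : ∀ a : L, π a = 1 ↔ a ∈ Subgroup.zpowers z := fun a => QuotientGroup.eq_one_iff a
  have hπs : Function.Surjective π := QuotientGroup.mk'_surjective _
  have hχk : ∀ i : ℤ, χ (x ^ i) = Multiplicative.ofAdd (i : ZMod p) := by
    intro i
    rw [map_zpow, hχx]
    apply Multiplicative.toAdd.injective
    rw [toAdd_zpow, toAdd_ofAdd, toAdd_ofAdd, zsmul_eq_mul, mul_one]
  have hχz : ∀ a ∈ Subgroup.zpowers z, χ a = 1 := by
    rintro _ ⟨k, rfl⟩
    show χ (z ^ k) = 1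
    rw [map_zpow, hF.chz, one_zpow]
  let F : Subgroup G := χ.ker.map π
  let H : Subgroup G := (Subgroup.zpowers x).map π
  have hFn : F.Normal := Subgroup.Normal.map inferInstance π hπs
  have memF : ∀ a : L, π a ∈ F ↔ χ a = 1 := by
    intro a
    constructor
    · rintro ⟨b, hb, hba⟩
      have h1 : π (b⁻¹ * a) = 1 := by rw [map_mul, map_inv, hba, inv_mul_cancel]
      have h2 := hχz _ ((hπ _).1 h1)
      have hb' : χ b = 1 := hb
      rw [map_mul, map_inv, hb', inv_one, one_mul] at h2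
      exact h2
    · intro h
      exact ⟨a, h, rfl⟩
  have memH : ∀ a : L, π a ∈ H ↔ a ∈ Subgroup.zpowers x := by
    intro a
    constructor
    · rintro ⟨b, hb, hba⟩
      have h1 : π (b⁻¹ * a) = 1 := by rw [map_mul, map_inv, hba, inv_mul_cancel]
      have h2 := mem_zp hx ((hπ _).1 h1)
      have := Subgroup.mul_mem _ hb h2
      rwa [mul_inv_cancel_left] at this
    · intro h
      exact ⟨a, h, rfl⟩
  have hcapz : ∀ a : L, χ a = 1 → a ∈ Subgroup.zpowers x → a ∈ Subgroup.zpowers z := by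
    rintro _ h1 ⟨i, rfl⟩
    have h2 : χ (x ^ i) = 1 := h1
    rw [hχk] at h2
    have h3 : (i : ZMod p) = 0 := h2
    obtain ⟨l, hl⟩ := (ZMod.intCast_zmod_eq_zero_iff_dvd _ p).1 h3
    refine ⟨l, ?_⟩
    show z ^ l = x ^ i
    rw [hl, zpow_mul, zpow_natCast, hx]
  refine ⟨p, hp, G, inferInstance, F, H, ?_, hFn, ?_, ?_, ?_, ?_, ?_, ?_⟩
  · intro g
    obtain ⟨a, rfl⟩ := hπs g
    refine ⟨1, ?_⟩
    rw [pow_one, ← map_pow, hπ]
    exact hF.pow_mem a
  · rw [eq_bot_iff]
    rintro g ⟨h1, h2⟩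
    obtain ⟨a, rfl⟩ := hπs g
    have h1' := (memF a).1 h1
    have h2' := (memH a).1 h2
    rw [Subgroup.mem_bot, hπ]
    exact hcapz a h1' h2'
  · rw [eq_top_iff]
    intro g _
    obtain ⟨a, rfl⟩ := hπs g
    obtain ⟨i, hi⟩ : ∃ i : ℤ, χ a = Multiplicative.ofAdd (i : ZMod p) := by
      refine ⟨((Multiplicative.toAdd (χ a)).val : ℤ), ?_⟩
      rw [Int.cast_natCast, ZMod.natCast_zmod_val]
      rfl
    have e : π a = π (a * x ^ (-i)) * π (x ^ i) := by
      rw [← map_mul, zpow_neg, inv_mul_cancel_right]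
    rw [e]
    apply Subgroup.mul_mem_sup
    · rw [memF, map_mul, hχk, hi]
      apply Multiplicative.toAdd.injective
      rw [toAdd_mul, toAdd_ofAdd, toAdd_ofAdd, toAdd_one]
      push_cast
      rw [add_neg_cancel]
    · rw [memH]
      exact Subgroup.zpow_mem _ (Subgroup.mem_zpowers x) i
  · intro h
    have h1 : π (c t0) ∈ F := by rw [memF, hcχ, ht0]
    rw [h, Subgroup.mem_bot, hπ] at h1
    obtain ⟨k, hk⟩ := h1
    have hk' : z ^ k = c t0 := hk
    apply ht0'
    refine ⟨k, ?_⟩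
    show S0.z ^ k = t0
    apply hc
    rw [map_zpow, hcz, hk']
  · intro h
    have h1 : π x ∈ H := (memH x).2 (Subgroup.mem_zpowers x)
    rw [h, Subgroup.mem_bot, hπ] at h1
    have h2 := hχz x h1
    rw [hχx] at h2
    have h3 : (1 : ZMod p) = 0 := h2
    exact one_ne_zero h3
  · intro g hg y hy hgy
    obtain ⟨g, rfl⟩ := hπs g
    obtain ⟨y, rfl⟩ := hπs y
    rw [← map_inv, ← map_mul, ← map_mul, memH] at hgy
    rw [memH] at hy hg
    by_contra hne
    rw [hπ] at hne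
    exact hg (hF.mal hp hx hy hne hgy)
  · intro y
    constructor
    · rintro ⟨hy1, hy2⟩ g hg
      apply hy2
      have h1 : g⁻¹ * y * g ∈ F := by
        have := hFn.conj_mem y hy1 g⁻¹
        rwa [inv_inv] at this
      obtain ⟨a, ha⟩ := hπs (g⁻¹ * y * g)
      rw [← ha, memH] at hg
      rw [← ha, memF] at h1
      have h2 := (hπ _).2 (hcapz a h1 hg)
      rw [ha] at h2
      have h3 : y = g * (g⁻¹ * y * g) * g⁻¹ := by group
      rw [h3, h2, mul_one, mul_inv_cancel]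
    · intro hall
      have hy1 : y ≠ 1 := by
        rintro rfl
        apply hall 1
        rw [mul_one, mul_one, inv_one]
        exact H.one_mem
      refine ⟨?_, hy1⟩
      obtain ⟨a, rfl⟩ := hπs y
      rw [memF]
      by_contra hne
      rw [Ne, hπ] at hy1
      obtain ⟨k, hk, hk2, hk3⟩ := hF.tz a hy1
      obtain ⟨u, v, huv⟩ := bez hp hk2
      have hχa := hk3 hne
      set b : L := a ^ u * z ^ v with hb
      have hcomm : Commute (a ^ u) (z ^ v) :=
        ((show Commute a z from hF.cen a).zpow_left u).zpow_right v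
      have hbp : b ^ p = z := by
        rw [hb, hcomm.mul_pow]
        have e1 : (a ^ u) ^ p = z ^ (k * u) := by
          rw [zpow_mul, ← hk, ← zpow_natCast, ← zpow_mul, mul_comm u, zpow_mul, zpow_natCast]
        have e2 : (z ^ v) ^ p = z ^ ((p : ℤ) * v) := by
          rw [← zpow_natCast, ← zpow_mul, mul_comm]
        rw [e1, e2, ← zpow_add, huv, zpow_one]
      have hbχ : χ b = Multiplicative.ofAdd 1 := by
        rw [hb, map_mul, map_zpow, map_zpow, hF.chz, one_zpow, mul_one, hχa]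
        apply Multiplicative.toAdd.injective
        rw [toAdd_zpow, toAdd_ofAdd, toAdd_ofAdd, zsmul_eq_mul]
        have h5 : ((k * u + p * v : ℤ) : ZMod p) = ((1 : ℤ) : ZMod p) := by rw [huv]
        push_cast at h5
        rw [CharP.cast_eq_zero, zero_mul, add_zero] at h5
        rw [mul_comm, h5]
      obtain ⟨s, hs'⟩ := hconj b hbp hbχ
      have hba : b ^ k = a := by
        rw [hb, hcomm.mul_zpow, ← zpow_mul, ← zpow_mul]
        have e1 : z ^ (v * k) = a ^ ((p : ℤ) * v) := by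
          rw [mul_comm v, zpow_mul, ← hk, ← zpow_natCast, ← zpow_mul]
        rw [e1, ← zpow_add, mul_comm u, huv, zpow_one]
      apply hall (π s⁻¹)
      rw [← map_inv, ← map_mul, ← map_mul, memH, inv_inv, ← hba]
      refine ⟨k, ?_⟩
      show x ^ k = _
      rw [← hs', conj_zpow]

end Pool.Agent.TH68.FR
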