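import Pool.Agent.TH54.BU.Step

/-!
# One step of the construction with a class function (after helper54's `Step`)

The relators are `a_i ^ p * z ^ (-ε_i)` where `ε_i` is the class of `a_i` if this class is
nonzero and `1` otherwise.
-/

set_option autoImplicit false

namespace Pool.Agent.TH68.FR

open Pool.Agent.TH54.BU

/-- the integer `k` is prime to `p` and agrees with the class of `a` if this class is nonzero -/
def Cl {A : Type} [Group A] {p : ℕ} (χ : A →* Multiplicative (ZMod p)) (a : A) (k : ℤ) : Prop :=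
  ¬ (p : ℤ) ∣ k ∧ (χ a ≠ 1 → χ a = Multiplicative.ofAdd (k : ZMod p))

/-- the conclusion of one step -/
structure StepC {A G : Type} [Group A] [Group G] (φ : A →* G) (z : A) {p : ℕ}
    (χ : A →* Multiplicative (ZMod p)) (K B T : ℕ) (H : GH G)
    (N : Subgroup A) (M : Subgroup G) [M.Normal] : Prop where
  map : N.map φ = M
  chi : ∀ a ∈ N, χ a = 1
  inj : ∀ a ∈ N, φ a = 1 → a = 1
  le : M ≤ powSub G p
  tz : ∀ a : A, IsOfFinOrder ((φ a : G) : G ⧸ M) → φ a ∉ M →
    ∃ k : ℤ, a ^ p * z ^ (-k) ∈ N ∧ Cl χ a k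
  len : ∃ F : GH (G ⧸ M), F.D = 4 ∧ F.Stab T ∧ F.Acy K B ∧
    ∀ g : G, F.len (g : G ⧸ M) ≤ (H.len g + 1) / 2
  small : ∀ g : G, H.len g ≤ 4 → g ∈ M → g = 1
  kill : ∀ g : G, H.len g ≤ 1 → IsOfFinOrder (g : G ⧸ M)

/-- every element has a class number -/
theorem exists_cl {A : Type} [Group A] {p : ℕ} (hp : p.Prime) (χ : A →* Multiplicative (ZMod p))
    (a : A) : ∃ k : ℤ, Cl χ a k := by
  have : Fact p.Prime := ⟨hp⟩
  by_cases h : χ a = 1
  · refine ⟨1, ?_, fun h2 => absurd h h2⟩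
    intro h1
    have h2 : (p : ℤ) = 1 := Int.eq_one_of_dvd_one (by positivity) h1
    have := hp.one_lt
    omega
  · refine ⟨((Multiplicative.toAdd (χ a)).val : ℤ), ?_, ?_⟩
    · intro h1
      apply h
      have h2 := (ZMod.intCast_zmod_eq_zero_iff_dvd _ p).2 h1
      rw [Int.cast_natCast, ZMod.natCast_zmod_val] at h2
      exact h2
    · intro _
      rw [Int.cast_natCast, ZMod.natCast_zmod_val]
      rfl

/-- the class is a `p`-torsion element -/
theorem chi_pow {A : Type} [Group A] {p : ℕ} (χ : A →* Multiplicative (ZMod p)) (a : A) :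
    χ a ^ p = 1 := by
  apply Multiplicative.toAdd.injective
  rw [toAdd_pow, toAdd_one, nsmul_eq_mul, CharP.cast_eq_zero, zero_mul]

theorem stepE : ∃ K B T : ℕ, 500 ≤ K ∧ 8 * K + 20 ≤ B ∧ 1 ≤ T ∧ ∃ p0 : ℕ, ∀ p : ℕ, p.Prime →
    p0 ≤ p → ∀ (A G : Type) [Group A] [Group G] (φ : A →* G)
    (χ : A →* Multiplicative (ZMod p)), Function.Surjective φ →
    ∀ z : A, (∀ a, a * z = z * a) → χ z = 1 → φ.ker = Subgroup.zpowers z →
    (∀ a : A, IsOfFinOrder (φ a) → φ a ≠ 1 → ∃ k : ℤ, a ^ p = z ^ k ∧ Cl χ a k) →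
    ∀ H : GH G, H.D = 4 → H.Stab T → H.Acy K B →
    ∃ (N : Subgroup A) (_ : N.Normal) (M : Subgroup G) (_ : M.Normal),
      StepC φ z χ K B T H N M := by
  obtain ⟨De, hDe⟩ := exists_cone 4 3250
  obtain ⟨QD, hQD⟩ : ∃ x, x = 2 * De + 2 := ⟨_, rfl⟩
  obtain ⟨Nb, hNb⟩ : ∃ x, x = (2 * (101 * QD + 100) + 3) ^ 2 := ⟨_, rfl⟩
  obtain ⟨B, hB⟩ : ∃ x, x = 8 * (Nb + 3) * 500 + 2 := ⟨_, rfl⟩
  obtain ⟨θ, hθ⟩ : ∃ x, x = B + 200 * (220 + 3250 + 4 + 1) := ⟨_, rfl⟩
  obtain ⟨Θ, hΘ⟩ := hDe θ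
  obtain ⟨Cm, hCm⟩ := mixQ 4 3250 θ Θ De B
  obtain ⟨Te, hTe⟩ : ∃ x, x = 2 * (θ + 2 * Θ + 100 * (4 + 3250 + 1) + 2) := ⟨_, rfl⟩
  obtain ⟨κ, hκ1, hκ2⟩ := exists_kappa Cm (QD + 2) (100 * QD + 100) Te
  obtain ⟨T, hT⟩ : ∃ x, x = κ * Te := ⟨_, rfl⟩
  rw [← hT] at hκ2
  have hκ : 2 ≤ κ := by omega
  have hT1 : 1 ≤ T := by
    rw [hT]
    exact Nat.mul_pos (by omega) (by omega)
  obtain ⟨n0, hn0⟩ := hCm T
  obtain ⟨th, hth⟩ : ∃ x, x = T * (2 * 3250 + θ + 1) := ⟨_, rfl⟩
  obtain ⟨p0, hp0⟩ : ∃ x, x = n0 + (40 * th + 1) + (24 * th + T * (2 * 3250 + 1) +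
    4 * (T * Θ + 1)) + (4 * T * (1000 * (4 + 3250 + θ + 1)) + 4 * T * Θ + 48 * th + 4) +
    T * (4 + 3250) + 3 := ⟨_, rfl⟩
  refine ⟨500, B, T, le_rfl, ?_, hT1, p0, ?_⟩
  · omega
  intro p hp hpp A G _ _ φ χ hφ z hz hχz hker htz H hD hS hA
  have hp3 : 3 ≤ p := by omega
  have hodd : Odd p := hp.odd_of_ne_two (by omega)
  have hz1 : φ z = 1 := by
    have : z ∈ φ.ker := by rw [hker]; exact Subgroup.mem_zpowers z
    exact this
  have hzz : ∀ k : ℤ, φ (z ^ k) = 1 := by intro k; rw [map_zpow, hz1, one_zpow]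
  have hzc : ∀ (a : A) (k : ℤ), a * z ^ k = z ^ k * a := fun a k => Commute.zpow_right (hz a) k
  have hlift : ∀ {a b : A}, φ a = φ b → ∃ k : ℤ, a = b * z ^ k := by
    intro a b h
    have h1 : b⁻¹ * a ∈ φ.ker := by
      rw [MonoidHom.mem_ker, map_mul, map_inv, h, inv_mul_cancel]
    rw [hker] at h1
    obtain ⟨k, hk⟩ := h1
    exact ⟨k, by rw [show z ^ k = b⁻¹ * a from hk, mul_inv_cancel_left]⟩
  have htor : Tor G p := by
    intro g hg
    obtain ⟨a, rfl⟩ := hφ g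
    by_cases h1 : φ a = 1
    · rw [h1, one_pow]
    · obtain ⟨k, hk, _⟩ := htz a hg h1
      rw [← map_pow, hk, hzz]
  have hK : 100 * H.D + 100 ≤ 500 := by rw [hD]
  obtain ⟨L, hprim, hxlen, hshort⟩ := exists_LS' H hK hS hA hodd htor 220 3250 θ
    (by rw [hD]) (by rw [hD, hθ])
  have hthr : L.thr = th := hth.symm
  -- the relators
  choose a ha using fun i => hφ (L.x i)
  choose ε hε using fun i => exists_cl hp χ (a i)
  set r : L.ι → A := fun i => a i ^ p * z ^ (-ε i) with hr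
  have hφr : ∀ i, φ (r i) = L.x i ^ p := by
    intro i
    rw [hr]
    simp only [map_mul, map_pow, map_zpow, hz1, ha, one_zpow, mul_one]
  have hrc : ∀ i b, φ b ∈ Subgroup.zpowers (L.x i) → b * r i = r i * b := by
    rintro i b ⟨k, hk⟩
    have hk' : φ b = φ (a i ^ k) := by
      rw [map_zpow, ha]
      exact hk.symm
    obtain ⟨j, rfl⟩ := hlift hk'
    have c1 : Commute (a i ^ k) (r i) := by
      rw [hr]
      refine Commute.mul_right ?_ ?_
      · exact ((Commute.refl (a i)).zpow_left k).pow_right p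
      · exact Commute.zpow_right (hz _) _
    have c2 : Commute (z ^ j) (r i) := (hzc (r i) j).symm
    exact (c1.mul_left c2).eq
  set N := Subgroup.normalClosure (Set.range r) with hN
  set M := Subgroup.normalClosure (Set.range fun i => L.x i ^ p) with hM
  have hNn : N.Normal := Subgroup.normalClosure_normal
  have hMn : M.Normal := Subgroup.normalClosure_normal
  have hn1 : 40 * L.thr + 1 ≤ p := by rw [hthr]; omega
  have hgr := fun (b : A) (hb : b ∈ Subgroup.normalClosure (Set.range r)) (hb1 : b ≠ 1) (y : G) =>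
    L.gr_ext φ hφ hn1 r hφr hrc hb hb1 y
  have F : L.Fil p M := L.fil hn1
  have hmap : N.map φ = M := by
    rw [hN, Subgroup.map_normalClosure _ φ hφ, hM]
    congr 1
    rw [← Set.range_comp]
    congr 1
    funext i
    exact hφr i
  have hNχ : ∀ b ∈ N, χ b = 1 := by
    intro b hb
    have h1 : N ≤ χ.ker := by
      rw [hN]
      apply Subgroup.normalClosure_le_normal
      rintro _ ⟨i, rfl⟩
      show χ (a i ^ p * z ^ (-ε i)) = 1
      rw [map_mul, map_pow, map_zpow, chi_pow, hχz, one_zpow, mul_one]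
    exact h1 hb
  have hxM : ∀ i, L.x i ^ p ∈ M := fun i => Subgroup.subset_normalClosure ⟨i, rfl⟩
  have hrN : ∀ i, r i ∈ N := fun i => Subgroup.subset_normalClosure ⟨i, rfl⟩
  obtain ⟨E, hED, hcone⟩ := hΘ G H T L (by rw [hD])
  obtain ⟨Q, hQD', hQ1, hQ2⟩ := L.exists_quo F hcone hT1 (by rw [hthr]; omega)
  have hQDQ : Q.D = QD := by rw [hQD', hED, hQD]
  have S : Setup L 500 B p 220 Θ p E M Q :=
    { hK := hK, stab := hS, hT := hT1, acy := hA, odd := hodd, tor := htor, prim := hprim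
      xlen := hxlen, hL1 := by omega, short := hshort, fil := F, cone := hcone
      le := hQ1, lift := hQ2, hQD := hQD' }
  obtain ⟨hQS, hQT⟩ := S.stab_tor (by rw [hthr, hD]; omega)
  have htz' : ∀ b : A, IsOfFinOrder ((φ b : G) : G ⧸ M) → φ b ∉ M →
      ∃ k : ℤ, b ^ p * z ^ (-k) ∈ N ∧ Cl χ b k := by
    intro b hb hbM
    obtain ⟨g, hg, hg2⟩ := hQT _ hb
    -- replace `b` by an element over `g`
    have h1 : φ b * g⁻¹ ∈ M := by
      have := QuotientGroup.eq.1 hg
      have h2 := hMn.conj_mem _ this g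
      rwa [show g * (g⁻¹ * φ b) * g⁻¹ = φ b * g⁻¹ by group] at h2
    rw [← hmap] at h1
    obtain ⟨n, hnN, hn⟩ := h1
    have h2 : φ (n⁻¹ * b) = g := by
      rw [map_mul, map_inv, hn]
      group
    have hbn : (b : A ⧸ N) = ((n⁻¹ * b : A) : A ⧸ N) := by
      apply QuotientGroup.eq.2
      have := hNn.conj_mem _ (N.inv_mem hnN) b⁻¹
      rwa [inv_inv, mul_assoc] at this
    have hχn : χ (n⁻¹ * b) = χ b := by
      rw [map_mul, map_inv, hNχ n hnN, inv_one, one_mul]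
    have key : ∀ k : ℤ, ((n⁻¹ * b : A) : A ⧸ N) ^ p = (z : A ⧸ N) ^ k →
        b ^ p * z ^ (-k) ∈ N := by
      intro k hk
      rw [← QuotientGroup.eq_one_iff]
      rw [QuotientGroup.mk_mul, QuotientGroup.mk_pow, hbn, hk, QuotientGroup.mk_zpow, zpow_neg,
        mul_inv_cancel]
    have hgM : g ∉ M := by
      intro h
      apply hbM
      have h3 : φ b = φ n * g := by rw [← h2, map_mul, map_inv]; group
      rw [h3]
      refine M.mul_mem ?_ h
      rw [← hmap]
      exact ⟨n, hnN, rfl⟩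
    rcases hg2 with hg2 | ⟨i, u, k, hk⟩
    · have hg1 : g ≠ 1 := fun h => hgM (h ▸ M.one_mem)
      obtain ⟨k, hk1, hk2⟩ := htz (n⁻¹ * b) (by rw [h2]; exact hg2) (by rw [h2]; exact hg1)
      refine ⟨k, key k ?_, hk2.1, fun h => ?_⟩
      swap
      · rw [← hχn]
        exact hk2.2 (by rw [hχn]; exact h)
      rw [← QuotientGroup.mk_pow, hk1, QuotientGroup.mk_zpow]
    · obtain ⟨v, hv⟩ := hφ u
      have h3 : φ (n⁻¹ * b) = φ (v * a i ^ k * v⁻¹) := by
        rw [h2, hk, map_mul, map_mul, map_inv, map_zpow, ha, hv]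
      obtain ⟨j, hj⟩ := hlift h3
      refine ⟨ε i * k + j * p, key _ ?_, ?_, ?_⟩
      · have h4 : ((a i : A) : A ⧸ N) ^ p = (z : A ⧸ N) ^ ε i := by
          have := (QuotientGroup.eq_one_iff (N := N) (r i)).2 (hrN i)
          rw [hr] at this
          simp only [QuotientGroup.mk_mul, QuotientGroup.mk_pow, QuotientGroup.mk_zpow] at this
          rw [zpow_neg] at this
          exact mul_inv_eq_one.1 this
        have h5 : ((z : A) : A ⧸ N) * ((v : A) : A ⧸ N) = (v : A ⧸ N) * (z : A ⧸ N) := by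
          rw [← QuotientGroup.mk_mul, ← QuotientGroup.mk_mul, hz]
        have c5 : Commute ((v : A) : A ⧸ N) (z : A ⧸ N) := h5.symm
        have h6 : ∀ w : A ⧸ N, Commute w (z : A ⧸ N) := by
          intro w
          obtain ⟨w, rfl⟩ := QuotientGroup.mk_surjective w
          show (w : A ⧸ N) * (z : A ⧸ N) = (z : A ⧸ N) * w
          rw [← QuotientGroup.mk_mul, ← QuotientGroup.mk_mul, hz]
        rw [hj]
        simp only [QuotientGroup.mk_mul, QuotientGroup.mk_inv, QuotientGroup.mk_zpow]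
        have e1 : ((v : A ⧸ N) * (a i : A ⧸ N) ^ k * (v : A ⧸ N)⁻¹) ^ p =
            (z : A ⧸ N) ^ (ε i * k) := by
          rw [conj_pow, ← zpow_natCast, ← zpow_mul, mul_comm k, zpow_mul, zpow_natCast, h4,
            ← zpow_mul, ((h6 (v : A ⧸ N)).zpow_right (ε i * k)).eq, mul_assoc, mul_inv_cancel,
            mul_one]
        rw [((h6 _).zpow_right j).mul_pow, e1, ← zpow_natCast, ← zpow_mul, ← zpow_add]
      · intro hdvd
        have h7 : (p : ℤ) ∣ k := by
          have h8 := dvd_sub hdvd (Dvd.intro_left j rfl : (p : ℤ) ∣ j * p)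
          rw [add_sub_cancel_right] at h8
          exact ((Nat.prime_iff_prime_int.1 hp).dvd_or_dvd h8).resolve_left (hε i).1
        obtain ⟨l, rfl⟩ := h7
        apply hgM
        rw [hk, zpow_mul, zpow_natCast]
        exact hMn.conj_mem _ (M.zpow_mem (hxM i) l) u
      · intro hne
        have h8 : χ b = χ (a i) ^ k := by
          rw [← hχn, hj, map_mul, map_mul, map_mul, map_inv, map_zpow, map_zpow, hχz, one_zpow,
            mul_one, mul_comm (χ v), mul_assoc, mul_inv_cancel, mul_one]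
        have h9 : χ (a i) ≠ 1 := by
          intro h10
          apply hne
          rw [h8, h10, one_zpow]
        rw [h8, (hε i).2 h9]
        apply Multiplicative.toAdd.injective
        rw [toAdd_zpow, toAdd_ofAdd, toAdd_ofAdd]
        push_cast
        rw [CharP.cast_eq_zero, mul_zero, add_zero, zsmul_eq_mul, mul_comm]
  have htorQ : Tor (G ⧸ M) p := by
    intro q hq
    obtain ⟨g, rfl⟩ := QuotientGroup.mk_surjective q
    obtain ⟨b, rfl⟩ := hφ g
    by_cases hb : φ b ∈ M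
    · have h1 : ((φ b : G) : G ⧸ M) = 1 := (QuotientGroup.eq_one_iff _).2 hb
      show ((φ b : G) : G ⧸ M) ^ p = 1
      rw [h1, one_pow]
    · obtain ⟨k, hk, _⟩ := htz' b hq hb
      show ((φ b : G) : G ⧸ M) ^ p = 1
      rw [← QuotientGroup.mk_pow, QuotientGroup.eq_one_iff, ← hmap]
      exact ⟨_, hk, by rw [map_mul, hzz, mul_one, map_pow]⟩
  have hmix := hn0 G H L 500 p 220 E M Q (by rw [hD]) (by rw [hED]) hp (by omega) htorQ S
  rw [hQDQ, ← hNb] at hmix
  have hacyQ := Q.mixA (by rw [hQDQ]) hQS hmix (κ * 500)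
  obtain ⟨F', hF'D, hF'⟩ := rescale Q (κ := κ) (by omega) (by rw [hQDQ]; omega)
  have hceil : ∀ q, Q.len q ≤ κ * F'.len q := by
    intro q
    rw [hF']
    have := Nat.div_add_mod (Q.len q + κ - 1) κ
    have h2 := Nat.mod_lt (Q.len q + κ - 1) (show 0 < κ by omega)
    omega
  refine ⟨N, hNn, M, hMn, ?_⟩
  refine
    { map := hmap
      chi := hNχ
      inj := ?_
      le := ?_
      tz := htz'
      len := ⟨F', hF'D, ?_, ?_, ?_⟩
      small := ?_
      kill := ?_ }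
  · intro b hb hb1
    by_contra hne
    obtain ⟨i, u, hiu⟩ := hgr b hb hne 1
    rw [hb1, mul_one, L.s_self, abs_zero, hthr] at hiu
    omega
  · rw [hM]
    unfold powSub
    apply Subgroup.normalClosure_mono
    rintro _ ⟨i, rfl⟩
    exact ⟨L.x i, rfl⟩
  · intro q hq m
    have h1 := hQS q hq m
    have h2 : 2 * (θ + 2 * Θ + 100 * (H.D + 3250 + 1) + 2) = Te := by rw [hD, hTe]
    rw [h2] at h1
    calc m ≤ Te * Q.len (q ^ m) := h1
      _ ≤ Te * (κ * F'.len (q ^ m)) := Nat.mul_le_mul_left _ (hceil _)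
      _ = T * F'.len (q ^ m) := by rw [hT]; ring
  · intro q hq g hg
    have hq1 : κ * (B - 1) + 1 ≤ Q.len q := by
      rw [hF'] at hq
      by_contra hcon
      push Not at hcon
      have h1 : (Q.len q + κ - 1) / κ ≤ B - 1 := by
        rw [← Nat.lt_succ_iff, Nat.div_lt_iff_lt_mul (by omega)]
        have : κ * (B - 1) = (B - 1) * κ := Nat.mul_comm _ _
        rw [Nat.succ_mul]
        omega
      omega
    have hB1 : B - 1 = 8 * (Nb + 3) * 500 + 1 := by omega
    have e1 : κ * (B - 1) = 8 * (Nb + 3) * (κ * 500) + κ := by rw [hB1]; ring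
    have hsd : ∀ g, g ∈ F'.SD 500 q → g ∈ Q.SD (κ * 500) q := by
      rintro g ⟨g1, g2⟩
      exact ⟨(hceil g).trans (Nat.mul_le_mul_left _ g1),
        (hceil _).trans (Nat.mul_le_mul_left _ g2)⟩
    obtain ⟨a1, a2⟩ := hacyQ q (by rw [hQDQ]; omega) g (hsd g hg)
    exact ⟨a1, fun h hh => a2 h (hsd h hh)⟩
  · intro g
    rw [hF']
    have h1 := hQ1 g
    have h2 := hcone.le g
    have h3 : Q.len (g : G ⧸ M) ≤ H.len g := h1.trans h2
    rw [← Nat.lt_succ_iff, Nat.div_lt_iff_lt_mul (by omega)]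
    have h4 : ((H.len g + 1) / 2 + 1) * 2 ≤ ((H.len g + 1) / 2).succ * κ :=
      Nat.mul_le_mul_left _ hκ
    have h5 : ((H.len g + 1) / 2).succ * κ = (H.len g + 1) / 2 * κ + κ := Nat.succ_mul _ _
    have h6 : (H.len g + 1) / 2 * 2 ≤ (H.len g + 1) / 2 * κ := Nat.mul_le_mul_left _ hκ
    omega
  · intro g hg hgM
    by_contra hne
    obtain ⟨i, u, hiu⟩ := F.gr g hgM hne 1
    have h1 := L.s_le i u 1 (g * 1)
    rw [mul_one] at h1 hiu
    rw [H.d_one] at h1
    have h2 : T * (H.len g + 3250) ≤ T * (4 + 3250) := Nat.mul_le_mul_left _ (by omega)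
    rw [hthr] at hiu
    have h3 : (p : ℤ) ≤ ((T * (4 + 3250) : ℕ) : ℤ) + 12 * th := by
      have : ((T * (H.len g + 3250) : ℕ) : ℤ) ≤ ((T * (4 + 3250) : ℕ) : ℤ) := by exact_mod_cast h2
      omega
    have h4 : p ≤ T * (4 + 3250) + 12 * th := by exact_mod_cast h3
    omega
  · intro g hg
    by_cases hgt : IsOfFinOrder g
    · exact (QuotientGroup.mk' M).isOfFinOrder hgt
    · obtain ⟨i, u, k, hk⟩ := hshort g hgt (by rw [hD]; omega)
      rw [isOfFinOrder_iff_pow_eq_one]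
      refine ⟨p, by omega, ?_⟩
      rw [← QuotientGroup.mk_pow, QuotientGroup.eq_one_iff, hk, conj_pow, ← zpow_natCast,
        ← zpow_mul, mul_comm, zpow_mul, zpow_natCast]
      exact hMn.conj_mem _ (M.zpow_mem (hxM i) k) u

end Pool.Agent.TH68.FR
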