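import Pool.Agent.TH54.BU.Iter
import Pool.Agent.TH68.FR.StepE

/-!
# The iteration with a class function (after helper54's `Iter`)
-/

set_option autoImplicit false

namespace Pool.Agent.TH68.FR

open Pool.Agent.TH54.BU

section

variable {A0 F0 : Type} [Group A0] [Group F0] (π : A0 →* F0) (z0 : A0) {p : ℕ}
  (χ : A0 →* Multiplicative (ZMod p)) (K B T : ℕ)

/-- a stage of the construction -/
structure Stg where
  N : Subgroup A0
  hN : N.Normal
  M : Subgroup F0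
  hM : M.Normal
  map : N.map π = M
  inj : ∀ a ∈ N, π a = 1 → a = 1
  chi : ∀ a ∈ N, χ a = 1
  tz : ∀ a : A0, (∃ m : ℕ, 0 < m ∧ π a ^ m ∈ M) → π a ∉ M →
    ∃ k : ℤ, a ^ p * z0 ^ (-k) ∈ N ∧ Cl χ a k
  H : GH (F0 ⧸ M)
  hD : H.D = 4
  stab : H.Stab T
  acy : H.Acy K B

variable {π z0 χ K B T}

instance (s : Stg π z0 χ K B T) : s.M.Normal := s.hM

instance (s : Stg π z0 χ K B T) : s.N.Normal := s.hN

/-- the length of an element at a stage -/
def Stg.ln (s : Stg π z0 χ K B T) (g : F0) : ℕ := s.H.len (g : F0 ⧸ s.M)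

/-- the relation between successive stages -/
structure Nxt (s s' : Stg π z0 χ K B T) : Prop where
  leN : s.N ≤ s'.N
  leM : s.M ≤ s'.M
  len : ∀ g, s'.ln g ≤ (s.ln g + 1) / 2
  small : ∀ g, s.ln g ≤ 4 → g ∈ s'.M → g ∈ s.M
  kill : ∀ g, s.ln g ≤ 1 → ∃ m : ℕ, 0 < m ∧ g ^ m ∈ s'.M

theorem exists_next (hπ : Function.Surjective π) (hz : ∀ a, a * z0 = z0 * a)
    (hχz : χ z0 = 1) (hker : π.ker = Subgroup.zpowers z0)
    (hstep : ∀ (A G : Type) [Group A] [Group G] (φ : A →* G)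
    (χ : A →* Multiplicative (ZMod p)), Function.Surjective φ →
    ∀ z : A, (∀ a, a * z = z * a) → χ z = 1 → φ.ker = Subgroup.zpowers z →
    (∀ a : A, IsOfFinOrder (φ a) → φ a ≠ 1 → ∃ k : ℤ, a ^ p = z ^ k ∧ Cl χ a k) →
    ∀ H : GH G, H.D = 4 → H.Stab T → H.Acy K B →
    ∃ (N : Subgroup A) (_ : N.Normal) (M : Subgroup G) (_ : M.Normal),
      StepC φ z χ K B T H N M) (s : Stg π z0 χ K B T) : ∃ s' : Stg π z0 χ K B T, Nxt s s' := by
  have hNn := s.hN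
  have hMn := s.hM
  have hle : s.N ≤ s.M.comap π := by
    rw [← Subgroup.map_le_iff_le_comap, s.map]
  let φ : A0 ⧸ s.N →* F0 ⧸ s.M := QuotientGroup.map s.N s.M π hle
  have hφ : ∀ a : A0, φ (a : A0 ⧸ s.N) = ((π a : F0) : F0 ⧸ s.M) := fun a => rfl
  let χ' : A0 ⧸ s.N →* Multiplicative (ZMod p) := QuotientGroup.lift s.N χ s.chi
  have hχ' : ∀ a : A0, χ' (a : A0 ⧸ s.N) = χ a := fun a => rfl
  have hcl : ∀ (a : A0) (k : ℤ), Cl χ' (a : A0 ⧸ s.N) k ↔ Cl χ a k := fun a k => Iff.rfl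
  have hsurj : Function.Surjective φ := by
    intro g
    obtain ⟨g, rfl⟩ := QuotientGroup.mk_surjective g
    obtain ⟨a, rfl⟩ := hπ g
    exact ⟨a, rfl⟩
  have hlift : ∀ a : A0, π a ∈ s.M → ∃ n ∈ s.N, ∃ k : ℤ, a = n * z0 ^ k := by
    intro a ha
    rw [← s.map] at ha
    obtain ⟨n, hn, hna⟩ := ha
    have h1 : n⁻¹ * a ∈ π.ker := by
      rw [MonoidHom.mem_ker, map_mul, map_inv, ← hna, inv_mul_cancel]
    rw [hker] at h1
    obtain ⟨k, hk⟩ := h1
    exact ⟨n, hn, k, by rw [show z0 ^ k = n⁻¹ * a from hk, mul_inv_cancel_left]⟩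
  have hπz : π z0 = 1 := by
    have : z0 ∈ π.ker := by rw [hker]; exact Subgroup.mem_zpowers z0
    exact this
  have hkerφ : φ.ker = Subgroup.zpowers (z0 : A0 ⧸ s.N) := by
    ext a
    obtain ⟨a, rfl⟩ := QuotientGroup.mk_surjective a
    rw [MonoidHom.mem_ker]
    constructor
    · intro h
      have h1 : π a ∈ s.M := (QuotientGroup.eq_one_iff _).1 h
      obtain ⟨n, hn, k, rfl⟩ := hlift a h1
      refine ⟨k, ?_⟩
      show ((z0 : A0) : A0 ⧸ s.N) ^ k = ((n * z0 ^ k : A0) : A0 ⧸ s.N)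
      rw [QuotientGroup.mk_mul, (QuotientGroup.eq_one_iff n).2 hn, one_mul,
        QuotientGroup.mk_zpow]
    · rintro ⟨k, hk⟩
      have hk' : ((z0 : A0) : A0 ⧸ s.N) ^ k = (a : A0 ⧸ s.N) := hk
      show φ (a : A0 ⧸ s.N) = 1
      rw [← hk', map_zpow, hφ, hπz]
      simp
  have htz : ∀ a : A0 ⧸ s.N, IsOfFinOrder (φ a) → φ a ≠ 1 →
      ∃ k : ℤ, a ^ p = (z0 : A0 ⧸ s.N) ^ k ∧ Cl χ' a k := by
    intro a h1 h2
    obtain ⟨a, rfl⟩ := QuotientGroup.mk_surjective a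
    have h3 := (fin_mk s.M (π a)).1 h1
    have h4 : π a ∉ s.M := fun h => h2 ((QuotientGroup.eq_one_iff _).2 h)
    obtain ⟨k, hk, hk2⟩ := s.tz a h3 h4
    refine ⟨k, ?_, hk2⟩
    have h5 := (QuotientGroup.eq_one_iff (N := s.N) _).2 hk
    rw [QuotientGroup.mk_mul, QuotientGroup.mk_pow, QuotientGroup.mk_zpow, zpow_neg] at h5
    exact mul_inv_eq_one.1 h5
  have hzq : ∀ a : A0 ⧸ s.N, a * (z0 : A0 ⧸ s.N) = (z0 : A0 ⧸ s.N) * a := by
    intro a
    obtain ⟨a, rfl⟩ := QuotientGroup.mk_surjective a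
    show (a : A0 ⧸ s.N) * (z0 : A0 ⧸ s.N) = (z0 : A0 ⧸ s.N) * (a : A0 ⧸ s.N)
    rw [← QuotientGroup.mk_mul, ← QuotientGroup.mk_mul, hz]
  obtain ⟨N1, hN1, M1, hM1, S⟩ := hstep (A0 ⧸ s.N) (F0 ⧸ s.M) φ χ' hsurj (z0 : A0 ⧸ s.N) hzq hχz
    hkerφ htz s.H s.hD s.stab s.acy
  obtain ⟨F, hFD, hFS, hFA, hFlen⟩ := S.len
  -- the new subgroups
  let N' : Subgroup A0 := N1.comap (QuotientGroup.mk' s.N)
  let M' : Subgroup F0 := M1.comap (QuotientGroup.mk' s.M)
  have hN'n : N'.Normal := hN1.comap _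
  have hM'n : M'.Normal := hM1.comap _
  have memN : ∀ a : A0, a ∈ N' ↔ (a : A0 ⧸ s.N) ∈ N1 := fun a => Iff.rfl
  have memM : ∀ g : F0, g ∈ M' ↔ (g : F0 ⧸ s.M) ∈ M1 := fun g => Iff.rfl
  let ψ : F0 →* (F0 ⧸ s.M) ⧸ M1 := (QuotientGroup.mk' M1).comp (QuotientGroup.mk' s.M)
  have hψker : ∀ g, ψ g = 1 ↔ g ∈ M' := by
    intro g
    show (((g : F0 ⧸ s.M) : (F0 ⧸ s.M)) : (F0 ⧸ s.M) ⧸ M1) = 1 ↔ _
    rw [QuotientGroup.eq_one_iff, memM]
  let e0 : F0 ⧸ M' →* (F0 ⧸ s.M) ⧸ M1 := QuotientGroup.lift M' ψ (fun g hg => (hψker g).2 hg)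
  have he0 : Function.Bijective e0 := by
    constructor
    · rw [injective_iff_map_eq_one]
      intro g hg
      obtain ⟨g, rfl⟩ := QuotientGroup.mk_surjective g
      exact (QuotientGroup.eq_one_iff _).2 ((hψker g).1 hg)
    · intro g
      obtain ⟨g, rfl⟩ := QuotientGroup.mk_surjective g
      obtain ⟨g, rfl⟩ := QuotientGroup.mk_surjective g
      exact ⟨(g : F0 ⧸ M'), rfl⟩
  let e : F0 ⧸ M' ≃* (F0 ⧸ s.M) ⧸ M1 := MulEquiv.ofBijective e0 he0
  have finM : ∀ g : F0, (∃ m : ℕ, 0 < m ∧ g ^ m ∈ M') ↔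
      IsOfFinOrder ((g : F0 ⧸ s.M) : (F0 ⧸ s.M) ⧸ M1) := by
    intro g
    rw [fin_mk]
    constructor
    · rintro ⟨m, hm, h⟩
      exact ⟨m, hm, by rw [← QuotientGroup.mk_pow]; exact h⟩
    · rintro ⟨m, hm, h⟩
      refine ⟨m, hm, ?_⟩
      rw [memM, QuotientGroup.mk_pow]
      exact h
  refine ⟨⟨N', hN'n, M', hM'n, ?_, ?_, ?_, ?_, F.comapE e, hFD, F.comapE_stab e hFS,
    F.comapE_acy e hFA⟩, ?_⟩
  · ext g
    constructor
    · rintro ⟨a, ha, rfl⟩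
      rw [memM, ← S.map]
      exact ⟨_, (memN a).1 ha, rfl⟩
    · intro hg
      rw [memM, ← S.map] at hg
      obtain ⟨n, hn, hng⟩ := hg
      obtain ⟨a, rfl⟩ := QuotientGroup.mk_surjective n
      have h1 : ((π a : F0) : F0 ⧸ s.M) = g := hng
      have h2 := QuotientGroup.eq.1 h1
      rw [← s.map] at h2
      obtain ⟨m, hm, hmg⟩ := h2
      refine ⟨a * m, ?_, ?_⟩
      · show ((a * m : A0) : A0 ⧸ s.N) ∈ N1
        rw [QuotientGroup.mk_mul, (QuotientGroup.eq_one_iff m).2 hm, mul_one]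
        exact hn
      · rw [map_mul, hmg, mul_inv_cancel_left]
  · intro a ha h1
    have h2 : (a : A0 ⧸ s.N) = 1 := by
      apply S.inj _ ((memN a).1 ha)
      rw [hφ, h1]
      rfl
    exact s.inj a ((QuotientGroup.eq_one_iff a).1 h2) h1
  · intro a ha
    exact S.chi (a : A0 ⧸ s.N) ((memN a).1 ha)
  · intro a h1 h2
    have h3 := (finM (π a)).1 h1
    obtain ⟨k, hk, hk2⟩ := S.tz (a : A0 ⧸ s.N) h3 h2
    refine ⟨k, ?_, hk2⟩
    rw [memN, QuotientGroup.mk_mul, QuotientGroup.mk_pow, QuotientGroup.mk_zpow]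
    exact hk
  · refine ⟨?_, ?_, ?_, ?_, ?_⟩
    · intro a ha
      show ((a : A0) : A0 ⧸ s.N) ∈ N1
      rw [(QuotientGroup.eq_one_iff a).2 ha]
      exact N1.one_mem
    · intro a ha
      show ((a : F0) : F0 ⧸ s.M) ∈ M1
      rw [(QuotientGroup.eq_one_iff a).2 ha]
      exact M1.one_mem
    · intro g
      exact hFlen (g : F0 ⧸ s.M)
    · intro g h1 h2
      exact (QuotientGroup.eq_one_iff g).1 (S.small (g : F0 ⧸ s.M) h1 h2)
    · intro g h1
      exact (finM g).2 (S.kill (g : F0 ⧸ s.M) h1)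

end


/-- groups of exponent `p` (the quotient by `z`) with a central extension and a class -/
structure Fr {A : Type} [Group A] (p : ℕ) (z : A) (χ : A →* Multiplicative (ZMod p)) : Prop where
  cen : ∀ a, a * z = z * a
  inf : ¬ IsOfFinOrder z
  chz : χ z = 1
  tz : ∀ a, a ∉ Subgroup.zpowers z → ∃ k : ℤ, a ^ p = z ^ k ∧ Cl χ a k

theorem burnE : ∃ p0 : ℕ, ∀ p : ℕ, p.Prime → p0 ≤ p → ∀ (A0 F0 : Type) [Group A0] [Group F0]
    (π : A0 →* F0) (χ : A0 →* Multiplicative (ZMod p)), Function.Surjective π →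
    ∀ z0 : A0, (∀ a, a * z0 = z0 * a) → χ z0 = 1 → ¬ IsOfFinOrder z0 →
    π.ker = Subgroup.zpowers z0 →
    (∀ a : A0, IsOfFinOrder (π a) → π a ≠ 1 → ∃ k : ℤ, a ^ p = z0 ^ k ∧ Cl χ a k) →
    ∀ H : GH F0, H.D = 4 → H.Stab 1 → (∀ K B, 500 ≤ K → 8 * K + 20 ≤ B → H.Acy K B) →
    ∃ (A' : Type) (_ : Group A') (z' : A') (χ' : A' →* Multiplicative (ZMod p)) (j : A0 →* A'),
      Function.Surjective j ∧ Fr p z' χ' ∧ j z0 = z' ∧ (∀ a, χ' (j a) = χ a) ∧
      ∀ a, H.len (π a) ≤ 4 → j a = 1 → a = 1 := by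
  obtain ⟨K, B, T, hK, hB, hT, p0, hstep⟩ := stepE
  refine ⟨p0, fun p hp hpp A0 F0 _ _ π χ hπ z0 hz hχz hinf hker htz H0 hD0 hS0 hA0 => ?_⟩
  have hst := hstep p hp hpp
  have hπz : π z0 = 1 := by
    have : z0 ∈ π.ker := by rw [hker]; exact Subgroup.mem_zpowers z0
    exact this
  have hπzk : ∀ k : ℤ, π (z0 ^ k) = 1 := by intro k; rw [map_zpow, hπz, one_zpow]
  -- the first stage
  let e0 : F0 ⧸ (⊥ : Subgroup F0) ≃* F0 := QuotientGroup.quotientBot
  let s0 : Stg π z0 χ K B T :=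
    { N := ⊥
      hN := inferInstance
      M := ⊥
      hM := inferInstance
      map := Subgroup.map_bot π
      inj := fun a ha _ => Subgroup.mem_bot.1 ha
      chi := by
        intro a ha
        rw [Subgroup.mem_bot.1 ha, map_one]
      tz := by
        rintro a ⟨m, hm, h1⟩ h2
        have h3 : IsOfFinOrder (π a) :=
          isOfFinOrder_iff_pow_eq_one.2 ⟨m, hm, Subgroup.mem_bot.1 h1⟩
        obtain ⟨k, hk, hk2⟩ := htz a h3 (fun h => h2 (Subgroup.mem_bot.2 h))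
        exact ⟨k, by rw [hk, ← zpow_add, add_neg_cancel, zpow_zero]; exact Subgroup.one_mem _,
          hk2⟩
      H := H0.comapE e0
      hD := hD0
      stab := by
        intro g hg m
        have := H0.comapE_stab e0 hS0 g hg m
        calc m ≤ 1 * (H0.comapE e0).len (g ^ m) := this
          _ ≤ T * (H0.comapE e0).len (g ^ m) := Nat.mul_le_mul_right _ hT
      acy := H0.comapE_acy e0 (hA0 K B hK hB) }
  have hnext := exists_next (K := K) (B := B) (T := T) (p := p) hπ hz hχz hker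
    (fun A G _ _ φ χ h1 z h2 h3 h4 h8 H h5 h6 h7 => hst A G φ χ h1 z h2 h3 h4 h8 H h5 h6 h7)
  choose nx hnx using hnext
  let s : ℕ → Stg π z0 χ K B T := fun n => nx^[n] s0
  have hs : ∀ n, Nxt (s n) (s (n + 1)) := by
    intro n
    have : s (n + 1) = nx (s n) := Function.iterate_succ_apply' nx n s0
    rw [this]
    exact hnx _
  have hNmono : Monotone fun n => (s n).N := monotone_nat_of_le_succ fun n => (hs n).leN
  -- lengths decrease
  have hdec : ∀ g : F0, ∀ k n : ℕ, (s n).ln g ≤ k + 1 → ∃ n', (s n').ln g ≤ 1 := by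
    intro g k
    induction k with
    | zero => exact fun n h => ⟨n, h⟩
    | succ k ih =>
      intro n h
      have := (hs n).len g
      exact ih (n + 1) (by omega)
  have htors : ∀ g : F0, ∃ n, ∃ m : ℕ, 0 < m ∧ g ^ m ∈ (s n).M := by
    intro g
    obtain ⟨n, hn⟩ := hdec g ((s 0).ln g) 0 (by omega)
    exact ⟨n + 1, (hs n).kill g hn⟩
  -- the limit
  let Ninf : Subgroup A0 := ⨆ n, (s n).N
  have memN : ∀ a : A0, a ∈ Ninf ↔ ∃ n, a ∈ (s n).N := fun a =>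
    Subgroup.mem_iSup_of_directed hNmono.directed_le
  have hNn : Ninf.Normal := by
    constructor
    intro a ha g
    obtain ⟨n, hn⟩ := (memN a).1 ha
    exact (memN _).2 ⟨n, (s n).hN.conj_mem a hn g⟩
  have hlow : ∀ a : A0, H0.len (π a) ≤ 4 → ∀ n, a ∈ (s n).N → a = 1 := by
    intro a ha n hn
    have hln : ∀ n, (s n).ln (π a) ≤ 4 := by
      intro n
      induction n with
      | zero => exact ha
      | succ n ih =>
        have := (hs n).len (π a)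
        omega
    have hall : ∀ n, π a ∈ (s n).M → π a = 1 := by
      intro n
      induction n with
      | zero => exact fun h0 => Subgroup.mem_bot.1 h0
      | succ n ih => exact fun h1 => ih ((hs n).small (π a) (hln n) h1)
    refine (s n).inj a hn (hall n ?_)
    rw [← (s n).map]
    exact ⟨a, hn, rfl⟩
  refine ⟨A0 ⧸ Ninf, inferInstance, (z0 : A0 ⧸ Ninf), QuotientGroup.lift Ninf χ ?_,
    QuotientGroup.mk' Ninf, QuotientGroup.mk'_surjective _, ?_, rfl, fun a => rfl, ?_⟩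
  · intro a ha
    obtain ⟨n, hn⟩ := (memN a).1 ha
    exact (s n).chi a hn
  · refine ⟨?_, ?_, hχz, ?_⟩
    · intro a
      obtain ⟨a, rfl⟩ := QuotientGroup.mk_surjective a
      show (a : A0 ⧸ Ninf) * (z0 : A0 ⧸ Ninf) = (z0 : A0 ⧸ Ninf) * (a : A0 ⧸ Ninf)
      rw [← QuotientGroup.mk_mul, ← QuotientGroup.mk_mul, hz]
    · rw [fin_mk]
      rintro ⟨m, hm, h⟩
      obtain ⟨n, hn⟩ := (memN _).1 h
      have h1 : π (z0 ^ m) = 1 := by
        rw [← zpow_natCast, hπzk]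
      exact hinf (isOfFinOrder_iff_pow_eq_one.2 ⟨m, hm, (s n).inj _ hn h1⟩)
    · intro a ha
      obtain ⟨a, rfl⟩ := QuotientGroup.mk_surjective a
      obtain ⟨n, hn⟩ := htors (π a)
      have h1 : π a ∉ (s n).M := by
        intro h
        apply ha
        rw [← (s n).map] at h
        obtain ⟨b, hb, hba⟩ := h
        have h1 : b⁻¹ * a ∈ π.ker := by
          rw [MonoidHom.mem_ker, map_mul, map_inv, ← hba, inv_mul_cancel]
        rw [hker] at h1
        obtain ⟨k, hk⟩ := h1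
        have hk' : z0 ^ k = b⁻¹ * a := hk
        refine ⟨k, ?_⟩
        show (z0 : A0 ⧸ Ninf) ^ k = (a : A0 ⧸ Ninf)
        rw [← QuotientGroup.mk_zpow, hk', QuotientGroup.mk_mul, QuotientGroup.mk_inv,
          (QuotientGroup.eq_one_iff b).2 ((memN b).2 ⟨n, hb⟩), inv_one, one_mul]
      obtain ⟨k, hk, hk2⟩ := (s n).tz a hn h1
      refine ⟨k, ?_, hk2⟩
      have h5 := (QuotientGroup.eq_one_iff (N := Ninf) _).2 ((memN _).2 ⟨n, hk⟩)
      rw [QuotientGroup.mk_mul, QuotientGroup.mk_pow, QuotientGroup.mk_zpow, zpow_neg] at h5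
      exact mul_inv_eq_one.1 h5
  · intro a ha h
    obtain ⟨n, hn⟩ := (memN a).1 ((QuotientGroup.eq_one_iff a).1 h)
    exact hlow a ha n hn

end Pool.Agent.TH68.FR
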