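import Pool.Agent.TH68.FR.Tree
import Pool.Agent.TH68.FR.IterE
import Pool.Agent.Helper495.E97.T12

/-!
# HNN extensions in the class of groups of large prime exponent with central extensions
-/

set_option autoImplicit false

namespace Pool.Agent.TH68.FR

open Pool.Agent.TH54.BU Pool.Agent.Helper495.E97 HNNExtension HNNExtension.NormalWord

/-- the data of an HNN extension whose edge groups are malnormal modulo `⟨z⟩` -/
structure HD {A : Type} [Group A] {p : ℕ} (z : A) (χ : A →* Multiplicative (ZMod p))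
    (C X : Subgroup A) (f : C ≃* X) : Prop where
  zC : z ∈ C
  fz : (f ⟨z, zC⟩ : A) = z
  fχ : ∀ a : C, χ (f a : A) = χ a
  mC : ∀ y ∈ C, y ∉ Subgroup.zpowers z → ∀ g, g * y * g⁻¹ ∈ C → g ∈ C
  mX : ∀ y ∈ X, y ∉ Subgroup.zpowers z → ∀ g, g * y * g⁻¹ ∈ X → g ∈ X
  mCX : ∀ y ∈ C, ∀ g, g * y * g⁻¹ ∈ X → y ∈ Subgroup.zpowers z

section

variable {A : Type} [Group A] {p : ℕ} {z : A} {χ : A →* Multiplicative (ZMod p)}

theorem Fr.mem_conj (h : Fr p z χ) {g t : A} (hg : t * g * t⁻¹ ∈ Subgroup.zpowers z) :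
    g ∈ Subgroup.zpowers z := by
  obtain ⟨k, hk⟩ := hg
  have hk' : z ^ k = t * g * t⁻¹ := hk
  have h1 : Commute t (z ^ k) := (show Commute t z from h.cen t).zpow_right k
  refine ⟨k, ?_⟩
  show z ^ k = g
  have h2 : z ^ k = t⁻¹ * z ^ k * t := by
    rw [mul_assoc, ← h1.eq, inv_mul_cancel_left]
  rw [h2, hk']
  group

theorem Fr.pow_mem (h : Fr p z χ) (a : A) : a ^ p ∈ Subgroup.zpowers z := by
  by_cases ha : a ∈ Subgroup.zpowers z
  · exact Subgroup.pow_mem _ ha p
  · obtain ⟨k, hk, _⟩ := h.tz a ha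
    exact ⟨k, hk.symm⟩

variable {C X : Subgroup A} {f : C ≃* X}

theorem HD.zpow (h : HD z χ C X f) (k : ℤ) :
    (f ⟨z ^ k, C.zpow_mem h.zC k⟩ : A) = z ^ k := by
  have e : (⟨z ^ k, C.zpow_mem h.zC k⟩ : C) = ⟨z, h.zC⟩ ^ k := rfl
  rw [e, map_zpow, Subgroup.coe_zpow, h.fz]

theorem HD.zX (h : HD z χ C X f) : z ∈ X := by
  have := (f ⟨z, h.zC⟩).2
  rwa [h.fz] at this

theorem HD.psi (h : HD z χ C X f) (u : ℤˣ) {y : A} (hy : y ∈ toSubgroup C X u)
    (hz : (toSubgroupEquiv f u ⟨y, hy⟩ : A) ∈ Subgroup.zpowers z) : y ∈ Subgroup.zpowers z := by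
  obtain ⟨k, hk⟩ := hz
  have hk' : z ^ k = (toSubgroupEquiv f u ⟨y, hy⟩ : A) := hk
  refine ⟨k, ?_⟩
  show z ^ k = y
  rcases Int.units_eq_one_or u with rfl | rfl
  · have hy' : y ∈ C := hy
    have h1 : (f ⟨y, hy'⟩ : A) = z ^ k := hk'.symm
    have h2 : f ⟨y, hy'⟩ = f ⟨z ^ k, C.zpow_mem h.zC k⟩ := by
      apply Subtype.ext
      rw [h1, h.zpow k]
    exact (congrArg Subtype.val (f.injective h2)).symm
  · have hy' : y ∈ X := hy
    have h1 : (f.symm ⟨y, hy'⟩ : A) = z ^ k := hk'.symm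
    have h2 : f.symm ⟨y, hy'⟩ = ⟨z ^ k, C.zpow_mem h.zC k⟩ := Subtype.ext h1
    rw [MulEquiv.symm_apply_eq] at h2
    have h3 := congrArg Subtype.val h2
    rw [h.zpow k] at h3
    exact h3.symm

theorem HD.cen (h : HD z χ C X f) (hF : Fr p z χ) (a : HNNExtension A C X f) :
    a * of z = of z * a := by
  induction a using HNNExtension.induction_on with
  | of g => rw [← map_mul, ← map_mul, hF.cen]
  | t =>
    have := t_mul_of (φ := f) ⟨z, h.zC⟩
    rwa [h.fz] at this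
  | mul x y hx hy => rw [mul_assoc, hy, ← mul_assoc, hx, mul_assoc]
  | inv x hx =>
    have : Commute x (of z) := hx
    exact this.inv_left.eq

theorem of_mem_zpowers {y : A} : (of y : HNNExtension A C X f) ∈ Subgroup.zpowers (of z) ↔
    y ∈ Subgroup.zpowers z := by
  constructor
  · rintro ⟨k, hk⟩
    have hk' : (of z : HNNExtension A C X f) ^ k = of y := hk
    rw [← map_zpow] at hk'
    exact ⟨k, of_injective _ hk'⟩
  · rintro ⟨k, hk⟩
    have hk' : z ^ k = y := hk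
    refine ⟨k, ?_⟩
    show (of z : HNNExtension A C X f) ^ k = of y
    rw [← hk', map_zpow]

theorem HD.ell (h : HD z χ C X f) (hF : Fr p z χ) (hp : 0 < p) (d : TransversalPair A C X) :
    Ell (hnnTree f d) (of z) where
  cen := h.cen hF
  L0 := len_of f d z
  tor := by
    intro g hg
    obtain ⟨a, rfl⟩ := (len_eq_zero_iff f d g).1 hg
    refine ⟨p, hp, ?_⟩
    rw [← map_pow, of_mem_zpowers]
    exact hF.pow_mem a
  acy := by
    intro g q hg hq hqg
    obtain ⟨a, rfl⟩ := (len_eq_zero_iff f d g).1 hg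
    rw [of_mem_zpowers]
    by_contra hne
    rw [hnnTree_L] at hq hqg
    obtain ⟨q₁, u₁, a₁, hm, h1, h2, h3⟩ := peel f d q a (by omega) hqg
    set g₁ := (toSubgroupEquiv f u₁ ⟨a₁ * a * a₁⁻¹, hm⟩ : A) with hg₁
    have hg1 : g₁ ∉ Subgroup.zpowers z := by
      intro h'
      exact hne (hF.mem_conj (h.psi u₁ hm h'))
    have hg1m : g₁ ∈ toSubgroup C X (-u₁) := (toSubgroupEquiv f u₁ ⟨a₁ * a * a₁⁻¹, hm⟩).2
    rw [h3] at hqg
    obtain ⟨q₂, u₂, a₂, hm₂, h4, h5, h6⟩ := peel f d q₁ g₁ (by omega) hqg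
    have hred : a₂ ∈ toSubgroup C X u₂ → u₂ = u₁ := by
      intro ha
      apply red_two f d u₁ u₂ a₁ a₂ _ ha
      have e1 := (hnnTree f d).L_mul_le q₂ (t ^ (u₂ : ℤ) * of a₂ * (t ^ (u₁ : ℤ) * of a₁))
      have e2 := (hnnTree f d).L_mul_le (t ^ (u₂ : ℤ) * of a₂) (t ^ (u₁ : ℤ) * of a₁)
      simp only [hnnTree_L] at e1 e2
      rw [len_syl, len_syl] at e2
      rw [← mul_assoc, ← h4, ← h1] at e1
      omega
    rcases Int.units_eq_one_or u₁ with rfl | rfl <;> rcases Int.units_eq_one_or u₂ with rfl | rfl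
    · have hX : g₁ ∈ X := hg1m
      have hC : a₂ * g₁ * a₂⁻¹ ∈ C := hm₂
      have := h.mCX _ hC a₂⁻¹ (by
        rw [inv_inv, show a₂⁻¹ * (a₂ * g₁ * a₂⁻¹) * a₂ = g₁ by group]
        exact hX)
      exact hg1 (hF.mem_conj this)
    · have hX : g₁ ∈ X := hg1m
      have hX' : a₂ * g₁ * a₂⁻¹ ∈ X := hm₂
      exact absurd (hred (h.mX _ hX hg1 _ hX')) (by decide)
    · have hC : g₁ ∈ C := hg1m
      have hC' : a₂ * g₁ * a₂⁻¹ ∈ C := hm₂
      exact absurd (hred (h.mC _ hC hg1 _ hC')) (by decide)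
    · have hC : g₁ ∈ C := hg1m
      have hX : a₂ * g₁ * a₂⁻¹ ∈ X := hm₂
      exact hg1 (h.mCX _ hC a₂ hX)

/-- the class on the HNN extension -/
def HD.chi (h : HD z χ C X f) : HNNExtension A C X f →* Multiplicative (ZMod p) :=
  HNNExtension.lift χ 1 (by intro a; rw [one_mul, mul_one, h.fχ])

@[simp] theorem HD.chi_of (h : HD z χ C X f) (a : A) : h.chi (of a) = χ a := by
  simp [HD.chi]

@[simp] theorem HD.chi_t (h : HD z χ C X f) : h.chi t = 1 := by
  simp [HD.chi]

end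

/-- an HNN extension in the class -/
theorem hnnStep : ∃ p0 : ℕ, ∀ p : ℕ, p.Prime → p0 ≤ p → ∀ (A : Type) [Group A] [Countable A]
    (z : A) (χ : A →* Multiplicative (ZMod p)), Fr p z χ → ∀ (C X : Subgroup A) (f : C ≃* X),
    HD z χ C X f → ∃ (A' : Type) (_ : Group A') (_ : Countable A') (z' : A')
      (χ' : A' →* Multiplicative (ZMod p)) (J : A →* A') (t' : A'), Function.Injective J ∧
      Fr p z' χ' ∧ J z = z' ∧ (∀ a, χ' (J a) = χ a) ∧ (∀ a : C, t' * J a * t'⁻¹ = J (f a)) ∧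
      χ' t' = 1 ∧ t' ∉ Subgroup.zpowers z' := by
  obtain ⟨p0, hb⟩ := burnE
  refine ⟨p0, fun p hp hpp A _ _ z χ hF C X f h => ?_⟩
  obtain ⟨d⟩ := TransversalPair.nonempty A C X
  have hE := h.ell hF hp.pos d
  have hn : (Subgroup.zpowers (of z : HNNExtension A C X f)).Normal := hE.normal
  have hinf : ¬ IsOfFinOrder (of z : HNNExtension A C X f) := by
    intro h1
    obtain ⟨m, hm, h2⟩ := isOfFinOrder_iff_pow_eq_one.1 h1
    rw [← map_pow] at h2
    apply hF.inf
    exact isOfFinOrder_iff_pow_eq_one.2 ⟨m, hm, of_injective _ (h2.trans (map_one _).symm)⟩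
  obtain ⟨A', iA', z', χ', j, hj, hF', hjz, hjχ, hinj⟩ := hb p hp hpp (HNNExtension A C X f)
    (HNNExtension A C X f ⧸ Subgroup.zpowers (of z)) (QuotientGroup.mk' _) h.chi
    (QuotientGroup.mk'_surjective _) (of z) (h.cen hF) (by rw [h.chi_of, hF.chz]) hinf
    (QuotientGroup.ker_mk' _) (by
      intro a ha1 ha2
      have ha1' := (fin_iff (z := (of z : HNNExtension A C X f)) a).1 ha1
      obtain ⟨n, hn, l, hl⟩ := ha1'
      have hl' : (of z : HNNExtension A C X f) ^ l = a ^ n := hl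
      obtain ⟨k, hk | hk⟩ := (hnnTree f d).exists_conj a
      · obtain ⟨b, hb⟩ := (len_eq_zero_iff f d _).1 hk
        have hbz : b ∉ Subgroup.zpowers z := by
          intro h'
          apply ha2
          have h3 : k * a * k⁻¹ ∈ Subgroup.zpowers (of z) := by
            rw [hb, of_mem_zpowers]
            exact h'
          exact (QuotientGroup.eq_one_iff a).2 (hE.mem_conj h3)
        obtain ⟨m, hm, hm2⟩ := hF.tz b hbz
        have ea : a = k⁻¹ * of b * k⁻¹⁻¹ := by rw [← hb]; group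
        have hχa : h.chi a = χ b := by
          rw [ea]
          simp only [map_mul, map_inv, h.chi_of, inv_inv]
          rw [mul_comm, mul_inv_cancel_left]
        refine ⟨m, ?_, hm2.1, fun hne => ?_⟩
        · rw [ea, conj_pow, ← map_pow, hm, map_zpow]
          exact hE.conj _ _
        · rw [hχa] at hne ⊢
          exact hm2.2 hne
      · exfalso
        have h3 := hk.pow _ n
        have h4 : (k * a * k⁻¹) ^ n = (of z) ^ l := by
          rw [conj_pow, ← hl']
          exact hE.conj _ _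
        rw [h4, hE.Lz] at h3
        have h5 := hk.1
        have : 0 < n * (hnnTree f d).L (k * a * k⁻¹) := Nat.mul_pos hn h5
        omega) (treeGH hE) rfl (treeGH_stab hE) (fun K B hK hB => treeGH_acy hE K B hK hB)
  have hc : Countable A' := hj.countable
  have hlen : ∀ a : HNNExtension A C X f, (hnnTree f d).L a ≤ 1 → j a = 1 → a = 1 := by
    intro a ha h1
    refine hinj a ?_ h1
    have h2 := qlen_le hE a
    show qlen (hnnTree f d) (Subgroup.zpowers (of z)) (a : HNNExtension A C X f) ≤ 4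
    omega
  refine ⟨A', iA', hc, z', χ', j.comp of, j t, ?_, hF', hjz, ?_, ?_, ?_, ?_⟩
  · rw [injective_iff_map_eq_one]
    intro a ha
    have h1 := hlen (of a) (by rw [hnnTree_L, len_of]; omega) ha
    exact of_injective _ (h1.trans (map_one _).symm)
  · intro a
    rw [MonoidHom.comp_apply, hjχ, h.chi_of]
  · intro a
    rw [MonoidHom.comp_apply, MonoidHom.comp_apply, ← map_inv, ← map_mul, ← map_mul,
      equiv_eq_conj]
  · rw [hjχ, h.chi_t]
  · rintro ⟨k, hk⟩
    have hk' : z' ^ k = j t := hk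
    have h1 : j (t * (of z) ^ (-k)) = 1 := by
      rw [map_mul, map_zpow, hjz, ← hk', ← zpow_add, add_neg_cancel, zpow_zero]
    have h2 : (hnnTree f d).L (t * (of z) ^ (-k)) = 1 := by
      rw [(hnnTree f d).L_mul_right0 (hE.Lz _), hnnTree_L, len_t]
    have h3 := hlen _ (by omega) h1
    rw [h3, (hnnTree f d).L_one] at h2
    omega

end Pool.Agent.TH68.FR
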