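import Pool.Agent.TH68.FR.Hnn
import Pool.Agent.Helper495.E97.Final

/-!
# The direct limit: all elements with the class of `x` are conjugate to `x`
-/

set_option autoImplicit false

namespace Pool.Agent.TH68.FR

open Pool.Agent.TH54.BU

section

variable {A : Type} [Group A] {p : ℕ} {z : A} {χ : A →* Multiplicative (ZMod p)}

theorem Fr.zinj (h : Fr p z χ) {k : ℤ} (hk : z ^ k = 1) : k = 0 := by
  by_contra hne
  exact h.inf (isOfFinOrder_iff_zpow_eq_one.2 ⟨k, hne, hk⟩)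

theorem Fr.zinj' (h : Fr p z χ) {k l : ℤ} (hk : z ^ k = z ^ l) : k = l := by
  have : z ^ (k - l) = 1 := by rw [zpow_sub, hk, mul_inv_cancel]
  have := h.zinj this
  omega

theorem Fr.conj (h : Fr p z χ) (g : A) (k : ℤ) : g * z ^ k * g⁻¹ = z ^ k := by
  have h1 : Commute g (z ^ k) := (show Commute g z from h.cen g).zpow_right k
  rw [h1.eq, mul_assoc, mul_inv_cancel, mul_one]

theorem pow_zpow {c : A} (hc : c ^ p = z) (k : ℤ) : (c ^ k) ^ p = z ^ k := by
  rw [← hc, ← zpow_natCast, ← zpow_natCast, ← zpow_mul, ← zpow_mul, mul_comm]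

theorem mem_zp {c : A} (hc : c ^ p = z) {g : A} (hg : g ∈ Subgroup.zpowers z) :
    g ∈ Subgroup.zpowers c := by
  obtain ⟨k, hk⟩ := hg
  have hk' : z ^ k = g := hk
  rw [← hk', ← hc]
  exact Subgroup.zpow_mem _ (Subgroup.pow_mem _ (Subgroup.mem_zpowers c) p) k

/-- a `p`-th root of `z` generates its centraliser -/
theorem Fr.cent (h : Fr p z χ) (hp : p.Prime) {c g : A} (hc : c ^ p = z) (hg : g * c = c * g) :
    g ∈ Subgroup.zpowers c := by
  by_cases hgz : g ∈ Subgroup.zpowers z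
  · exact mem_zp hc hgz
  obtain ⟨k, hk, _⟩ := h.tz g hgz
  have hcomm : Commute g (c ^ (-k)) := (show Commute g c from hg).zpow_right _
  have hw : (g * c ^ (-k)) ^ p = 1 := by
    rw [hcomm.mul_pow, hk, pow_zpow hc, ← zpow_add, add_neg_cancel, zpow_zero]
  have hw1 : g * c ^ (-k) = 1 := by
    by_cases hwz : g * c ^ (-k) ∈ Subgroup.zpowers z
    · obtain ⟨l, hl⟩ := hwz
      have hl' : z ^ l = g * c ^ (-k) := hl
      rw [← hl', ← zpow_natCast, ← zpow_mul] at hw
      have h1 := h.zinj hw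
      rcases mul_eq_zero.1 h1 with h2 | h2
      · rw [← hl', h2, zpow_zero]
      · exact absurd (by exact_mod_cast h2) hp.ne_zero
    · obtain ⟨m, hm, hm2⟩ := h.tz _ hwz
      rw [hw] at hm
      have h1 := h.zinj hm.symm
      rw [h1] at hm2
      exact absurd (dvd_zero _) hm2.1
  refine ⟨k, ?_⟩
  show c ^ k = g
  rw [zpow_neg] at hw1
  exact (mul_inv_eq_one.1 hw1).symm

theorem Fr.exp (h : Fr p z χ) {c x g : A} (hc : c ^ p = z) (hx : x ^ p = z) {i j : ℤ}
    (hij : g * c ^ i * g⁻¹ = x ^ j) : i = j := by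
  have h1 : (g * c ^ i * g⁻¹) ^ p = z ^ j := by rw [hij, pow_zpow hx]
  rw [conj_pow, pow_zpow hc, h.conj] at h1
  exact h.zinj' h1

theorem bez (hp : p.Prime) {i : ℤ} (hi : ¬ (p : ℤ) ∣ i) : ∃ a b : ℤ, i * a + p * b = 1 := by
  have h1 : IsCoprime (p : ℤ) i := (Nat.prime_iff_prime_int.1 hp).coprime_iff_not_dvd.2 hi
  obtain ⟨a, b, hab⟩ := h1
  exact ⟨b, a, by rw [← hab]; ring⟩

theorem root (hp : p.Prime) {c : A} (hc : c ^ p = z) {i : ℤ}
    (hi : c ^ i ∉ Subgroup.zpowers z) : ∃ a b : ℤ, i * a + p * b = 1 := by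
  apply bez hp
  rintro ⟨l, rfl⟩
  apply hi
  refine ⟨l, ?_⟩
  show z ^ l = _
  rw [zpow_mul, zpow_natCast, hc]

theorem root_eq {c : A} (hc : c ^ p = z) {i a b : ℤ} (hab : i * a + p * b = 1) :
    c = (c ^ i) ^ a * z ^ b := by
  rw [← hc, ← zpow_natCast, ← zpow_mul, ← zpow_mul, ← zpow_add, hab, zpow_one]

/-- malnormality of the group generated by a root of `z` -/
theorem Fr.mal (h : Fr p z χ) (hp : p.Prime) {c y g : A} (hc : c ^ p = z)
    (hy : y ∈ Subgroup.zpowers c) (hyz : y ∉ Subgroup.zpowers z)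
    (hg : g * y * g⁻¹ ∈ Subgroup.zpowers c) : g ∈ Subgroup.zpowers c := by
  obtain ⟨i, rfl⟩ := hy
  obtain ⟨j, hj⟩ := hg
  have hj' : g * c ^ i * g⁻¹ = c ^ j := hj.symm
  obtain rfl := h.exp hc hc hj'
  obtain ⟨a, b, hab⟩ := root hp hc hyz
  apply h.cent hp hc
  have h1 : Commute g (c ^ i) := by
    show g * c ^ i = c ^ i * g
    rw [mul_inv_eq_iff_eq_mul] at hj'
    exact hj'
  have h2 : Commute g z := h.cen g
  have h3 : Commute g ((c ^ i) ^ a * z ^ b) := (h1.zpow_right a).mul_right (h2.zpow_right b)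
  rw [← root_eq hc hab] at h3
  exact h3.eq

/-- if a nontrivial power of `c` is conjugate to a power of `x` then `c` and `x` are conjugate -/
theorem Fr.mal2 (h : Fr p z χ) (hp : p.Prime) {c x y g : A} (hc : c ^ p = z) (hx : x ^ p = z)
    (hy : y ∈ Subgroup.zpowers c) (hyz : y ∉ Subgroup.zpowers z)
    (hg : g * y * g⁻¹ ∈ Subgroup.zpowers x) : g * c * g⁻¹ = x := by
  obtain ⟨i, rfl⟩ := hy
  obtain ⟨j, hj⟩ := hg
  have hj' : g * c ^ i * g⁻¹ = x ^ j := hj.symm
  obtain rfl := h.exp hc hx hj'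
  obtain ⟨a, b, hab⟩ := root hp hc hyz
  have e1 := root_eq hc hab
  have e2 := root_eq hx hab
  rw [← hj', conj_zpow] at e2
  rw [e2]
  conv_lhs => rw [e1]
  rw [show g * ((c ^ i) ^ a * z ^ b) * g⁻¹ = g * (c ^ i) ^ a * g⁻¹ * (g * z ^ b * g⁻¹) by group,
    h.conj]

end

/-- objects: groups of exponent `p` with a central extension, a class and a root `x` of `z` of
class `1` -/
structure Ob (p : ℕ) where
  A : Type
  [grp : Group A]
  [cnt : Countable A]
  z : A
  x : A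
  χ : A →* Multiplicative (ZMod p)
  fr : Fr p z χ
  xp : x ^ p = z
  chx : χ x = Multiplicative.ofAdd 1

attribute [instance] Ob.grp Ob.cnt

/-- morphisms -/
structure Mor {p : ℕ} (S S' : Ob p) (j : S.A →* S'.A) : Prop where
  inj : Function.Injective j
  z : j S.z = S'.z
  x : j S.x = S'.x
  χ : ∀ a, S'.χ (j a) = S.χ a

/-- one stage -/
structure Sta {p : ℕ} (S S' : Ob p) (j : S.A →* S'.A) (a : S.A) : Prop where
  mor : Mor S S' j
  con : a ^ p = S.z → S.χ a = Multiplicative.ofAdd 1 → ∃ t, t * j a * t⁻¹ = S'.x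

/-- the isomorphism between the groups generated by two roots of `z` -/
theorem exists_HD {A : Type} [Group A] {p : ℕ} (hp : p.Prime) {z : A}
    {χ : A →* Multiplicative (ZMod p)} (h : Fr p z χ) {c x : A} (hc : c ^ p = z) (hx : x ^ p = z)
    (hχ : χ c = χ x) (hcx : ∀ g, g * c * g⁻¹ ≠ x) : ∃ (C X : Subgroup A) (f : C ≃* X)
      (hcC : c ∈ C), HD z χ C X f ∧ (f ⟨c, hcC⟩ : A) = x := by
  have hinj : ∀ c : A, c ^ p = z → Function.Injective (zpowersHom A c) := by
    intro c hc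
    rw [injective_iff_map_eq_one]
    intro a ha
    rw [zpowersHom_apply] at ha
    have h1 : z ^ (Multiplicative.toAdd a) = 1 := by rw [← pow_zpow hc, ha, one_pow]
    exact h.zinj h1
  let e₁ := MonoidHom.ofInjective (hinj c hc)
  let e₂ := MonoidHom.ofInjective (hinj x hx)
  let f : (zpowersHom A c).range ≃* (zpowersHom A x).range := e₁.symm.trans e₂
  have hmem : ∀ (c y : A), y ∈ (zpowersHom A c).range ↔ y ∈ Subgroup.zpowers c := by
    intro c y
    constructor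
    · rintro ⟨i, rfl⟩
      exact ⟨Multiplicative.toAdd i, rfl⟩
    · rintro ⟨i, rfl⟩
      exact ⟨Multiplicative.ofAdd i, rfl⟩
  have hf : ∀ (i : ℤ) (hi : c ^ i ∈ (zpowersHom A c).range), (f ⟨c ^ i, hi⟩ : A) = x ^ i := by
    intro i hi
    have h5 : e₁ (Multiplicative.ofAdd i) = ⟨c ^ i, hi⟩ := by
      apply Subtype.ext
      exact (MonoidHom.ofInjective_apply (hinj c hc)).trans (by simp [zpowersHom_apply])
    have h6 : f ⟨c ^ i, hi⟩ = e₂ (Multiplicative.ofAdd i) := by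
      change e₂ (e₁.symm ⟨c ^ i, hi⟩) = _
      rw [← h5, MulEquiv.symm_apply_apply]
    rw [h6]
    exact (MonoidHom.ofInjective_apply (hinj x hx)).trans (by simp [zpowersHom_apply])
  have hcC : c ∈ (zpowersHom A c).range := (hmem c c).2 (Subgroup.mem_zpowers c)
  have hzC : z ∈ (zpowersHom A c).range := (hmem c z).2 (mem_zp hc (Subgroup.mem_zpowers z))
  refine ⟨_, _, f, hcC, ⟨hzC, ?_, ?_, ?_, ?_, ?_⟩, ?_⟩
  · have h1 : (⟨z, hzC⟩ : (zpowersHom A c).range) = ⟨c ^ (p : ℤ), by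
        rw [zpow_natCast, hc]; exact hzC⟩ := Subtype.ext (by simp only [zpow_natCast, hc])
    rw [h1, hf, zpow_natCast, hx]
  · rintro ⟨y, hy⟩
    obtain ⟨i, hi⟩ := (hmem c y).1 hy
    have hi' : c ^ i = y := hi
    subst hi'
    rw [hf]
    show χ (x ^ i) = χ (c ^ i)
    rw [map_zpow, map_zpow, hχ]
  · intro y hy hyz g hg
    rw [hmem] at hy hg ⊢
    exact h.mal hp hc hy hyz hg
  · intro y hy hyz g hg
    rw [hmem] at hy hg ⊢
    exact h.mal hp hx hy hyz hg
  · intro y hy g hg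
    rw [hmem] at hy hg
    by_contra hyz
    exact hcx g (h.mal2 hp hc hx hy hyz hg)
  · have h1 : (⟨c, hcC⟩ : (zpowersHom A c).range) = ⟨c ^ (1 : ℤ), by
        rw [zpow_one]; exact hcC⟩ := Subtype.ext (by simp only [zpow_one])
    rw [h1, hf, zpow_one]

/-- the conclusion of `hnnStep` for a fixed `p` -/
def HS (p : ℕ) : Prop := ∀ (A : Type) [Group A] [Countable A]
    (z : A) (χ : A →* Multiplicative (ZMod p)), Fr p z χ → ∀ (C X : Subgroup A) (f : C ≃* X),
    HD z χ C X f → ∃ (A' : Type) (_ : Group A') (_ : Countable A') (z' : A')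
      (χ' : A' →* Multiplicative (ZMod p)) (J : A →* A') (t' : A'), Function.Injective J ∧
      Fr p z' χ' ∧ J z = z' ∧ (∀ a, χ' (J a) = χ a) ∧ (∀ a : C, t' * J a * t'⁻¹ = J (f a)) ∧
      χ' t' = 1 ∧ t' ∉ Subgroup.zpowers z'

theorem exists_sta {p : ℕ} (hp : p.Prime) (hs : HS p) (S : Ob p) (a : S.A) :
    ∃ (S' : Ob p) (j : S.A →* S'.A), Sta S S' j a := by
  by_cases hc : a ^ p = S.z ∧ S.χ a = Multiplicative.ofAdd 1 ∧ ∀ g, g * a * g⁻¹ ≠ S.x
  · obtain ⟨h1, h2, h3⟩ := hc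
    obtain ⟨C, X, f, hcC, hHD, hfc⟩ := exists_HD hp S.fr h1 S.xp (h2.trans S.chx.symm) h3
    obtain ⟨A', iA', cA', z', χ', J, t', hJ, hF', hJz, hJχ, hJt, -, -⟩ :=
      hs S.A S.z S.χ S.fr C X f hHD
    refine ⟨{ A := A', z := z', x := J S.x, χ := χ', fr := hF',
              xp := by rw [← map_pow, S.xp, hJz], chx := by rw [hJχ, S.chx] }, J,
      ⟨hJ, hJz, rfl, hJχ⟩, fun _ _ => ⟨t', ?_⟩⟩
    have := hJt ⟨a, hcC⟩
    rw [hfc] at this
    exact this
  · refine ⟨S, MonoidHom.id _, ⟨fun _ _ h => h, rfl, rfl, fun _ => rfl⟩, fun h1 h2 => ?_⟩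
    by_contra h3
    exact hc ⟨h1, h2, fun g hg => h3 ⟨g, hg⟩⟩

section seq

variable {p : ℕ} (hp : p.Prime) (hs : HS p)

/-- stages of the construction, with the bookkeeping of enumerations -/
structure Stt (p : ℕ) where
  S : Ob p
  q : ℕ → ℕ → S.A

noncomputable def enu (S : Ob p) : ℕ → S.A := (exists_surjective_nat S.A).choose

theorem enu_surj (S : Ob p) : Function.Surjective (enu S) :=
  (exists_surjective_nat S.A).choose_spec

/-- the next group -/
noncomputable def nS (n : ℕ) (st : Stt p) : Ob p :=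
  (exists_sta hp hs st.S (st.q n.unpair.1 n.unpair.2)).choose

noncomputable def nj (n : ℕ) (st : Stt p) : st.S.A →* (nS hp hs n st).A :=
  (exists_sta hp hs st.S (st.q n.unpair.1 n.unpair.2)).choose_spec.choose

theorem nj_spec (n : ℕ) (st : Stt p) : Sta st.S (nS hp hs n st) (nj hp hs n st)
    (st.q n.unpair.1 n.unpair.2) :=
  (exists_sta hp hs st.S (st.q n.unpair.1 n.unpair.2)).choose_spec.choose_spec

noncomputable def nxt (n : ℕ) (st : Stt p) : Stt p where
  S := nS hp hs n st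
  q := fun i k => if i = n + 1 then enu _ k else nj hp hs n st (st.q i k)

variable (S0 : Ob p)

noncomputable def sq : ℕ → Stt p
  | 0 => ⟨S0, fun _ k => enu _ k⟩
  | n + 1 => nxt hp hs n (sq n)

noncomputable def sj (n : ℕ) : (sq hp hs S0 n).S.A →* (sq hp hs S0 (n + 1)).S.A :=
  nj hp hs n (sq hp hs S0 n)

theorem sj_spec (n : ℕ) : Sta (sq hp hs S0 n).S (sq hp hs S0 (n + 1)).S (sj hp hs S0 n)
    ((sq hp hs S0 n).q n.unpair.1 n.unpair.2) := nj_spec hp hs n (sq hp hs S0 n)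

theorem q_succ (n i k : ℕ) (hi : i ≤ n) : (sq hp hs S0 (n + 1)).q i k =
    sj hp hs S0 n ((sq hp hs S0 n).q i k) :=
  if_neg (by omega : ¬ i = n + 1)

theorem q_self (n : ℕ) : Function.Surjective ((sq hp hs S0 n).q n) := by
  cases n with
  | zero => exact enu_surj _
  | succ n =>
    have : (sq hp hs S0 (n + 1)).q (n + 1) = enu _ := by
      funext k
      exact if_pos (rfl : n + 1 = n + 1)
    rw [this]
    exact enu_surj _

end seq

/-- the limit group -/
theorem limit {p : ℕ} (hp : p.Prime) (hs : HS p) (S0 : Ob p) :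
    ∃ (L : Type) (_ : Group L) (z x : L) (χ : L →* Multiplicative (ZMod p)) (c : S0.A →* L),
      Fr p z χ ∧ x ^ p = z ∧ χ x = Multiplicative.ofAdd 1 ∧ Function.Injective c ∧
      c S0.z = z ∧ (∀ a, χ (c a) = S0.χ a) ∧
      ∀ y, y ^ p = z → χ y = Multiplicative.ofAdd 1 → ∃ t, t * y * t⁻¹ = x := by
  have hspec := sj_spec hp hs S0
  obtain ⟨L, hL, c, hc, hcJ, hcs⟩ := Pool.Agent.Helper495.E97.exists_limit
    (fun n => (sq hp hs S0 n).S.A) (sj hp hs S0) (fun n => (hspec n).mor.inj)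
  have hcz : ∀ n, c n (sq hp hs S0 n).S.z = c 0 (sq hp hs S0 0).S.z := by
    intro n
    induction n with
    | zero => rfl
    | succ n ih => rw [← (hspec n).mor.z, hcJ, ih]
  have hcx : ∀ n, c n (sq hp hs S0 n).S.x = c 0 (sq hp hs S0 0).S.x := by
    intro n
    induction n with
    | zero => rfl
    | succ n ih => rw [← (hspec n).mor.x, hcJ, ih]
  have hup : ∀ n (a : (sq hp hs S0 n).S.A) m, n ≤ m → ∃ b : (sq hp hs S0 m).S.A,
      c m b = c n a ∧ (sq hp hs S0 m).S.χ b = (sq hp hs S0 n).S.χ a := by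
    intro n a m hm
    induction m, hm using Nat.le_induction with
    | base => exact ⟨a, rfl, rfl⟩
    | succ m hm ih =>
      obtain ⟨b, h1, h2⟩ := ih
      exact ⟨sj hp hs S0 m b, by rw [hcJ, h1], by rw [(hspec m).mor.χ, h2]⟩
  have hwd : ∀ n (a : (sq hp hs S0 n).S.A) m (b : (sq hp hs S0 m).S.A), c n a = c m b →
      (sq hp hs S0 n).S.χ a = (sq hp hs S0 m).S.χ b := by
    intro n a m b hab
    obtain ⟨a', h1, h2⟩ := hup n a (max n m) (le_max_left _ _)
    obtain ⟨b', h3, h4⟩ := hup m b (max n m) (le_max_right _ _)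
    have : a' = b' := hc _ (by rw [h1, h3, hab])
    rw [← h2, ← h4, this]
  have hpair : ∀ x y : L, ∃ (n : ℕ) (x' y' : (sq hp hs S0 n).S.A), c n x' = x ∧ c n y' = y := by
    intro x y
    obtain ⟨n, x', rfl⟩ := hcs x
    obtain ⟨m, y', rfl⟩ := hcs y
    obtain ⟨x'', h1, _⟩ := hup n x' (max n m) (le_max_left _ _)
    obtain ⟨y'', h3, _⟩ := hup m y' (max n m) (le_max_right _ _)
    exact ⟨max n m, x'', y'', h1, h3⟩
  choose lv el hel using hcs
  let χL : L →* Multiplicative (ZMod p) :=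
    { toFun := fun y => (sq hp hs S0 (lv y)).S.χ (el y)
      map_one' := by
        rw [hwd _ _ 0 1 (by rw [hel, map_one]), map_one]
      map_mul' := by
        intro x y
        obtain ⟨n, x', y', h1, h2⟩ := hpair x y
        rw [hwd _ (el (x * y)) n (x' * y') (by rw [hel, map_mul, h1, h2]),
          hwd _ (el x) n x' (by rw [hel, h1]), hwd _ (el y) n y' (by rw [hel, h2]), map_mul] }
  have hχL : ∀ n (a : (sq hp hs S0 n).S.A), χL (c n a) = (sq hp hs S0 n).S.χ a := by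
    intro n a
    exact hwd _ _ n a (by rw [hel])
  refine ⟨L, hL, c 0 (sq hp hs S0 0).S.z, c 0 (sq hp hs S0 0).S.x, χL, c 0, ⟨?_, ?_, ?_, ?_⟩,
    ?_, ?_, hc 0, rfl, hχL 0, ?_⟩
  · intro y
    obtain ⟨n, a, rfl⟩ : ∃ n a, c n a = y := ⟨lv y, el y, hel y⟩
    rw [← hcz n, ← map_mul, ← map_mul, (sq hp hs S0 n).S.fr.cen]
  · intro h1
    obtain ⟨m, hm, h2⟩ := isOfFinOrder_iff_pow_eq_one.1 h1
    rw [← map_pow] at h2
    exact (sq hp hs S0 0).S.fr.inf
      (isOfFinOrder_iff_pow_eq_one.2 ⟨m, hm, hc 0 (h2.trans (map_one _).symm)⟩)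
  · rw [hχL, (sq hp hs S0 0).S.fr.chz]
  · intro y hy
    obtain ⟨n, a, rfl⟩ : ∃ n a, c n a = y := ⟨lv y, el y, hel y⟩
    obtain ⟨k, hk, hk2⟩ := (sq hp hs S0 n).S.fr.tz a (by
      rintro ⟨k, hk⟩
      apply hy
      refine ⟨k, ?_⟩
      show c 0 (sq hp hs S0 0).S.z ^ k = _
      rw [← hcz n, ← map_zpow]
      exact congrArg _ hk)
    refine ⟨k, ?_, hk2.1, ?_⟩
    · rw [← map_pow, hk, map_zpow, hcz]
    · rw [hχL]
      exact hk2.2
  · rw [← map_pow, (sq hp hs S0 0).S.xp]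
  · rw [hχL, (sq hp hs S0 0).S.chx]
  · intro y hy1 hy2
    obtain ⟨i, a, rfl⟩ : ∃ n a, c n a = y := ⟨lv y, el y, hel y⟩
    obtain ⟨k, hk⟩ := q_self hp hs S0 i a
    have hle : i ≤ Nat.pair i k := Nat.left_le_pair i k
    have key : ∀ n, i ≤ n → c n ((sq hp hs S0 n).q i k) = c i a := by
      intro n hn
      induction n, hn using Nat.le_induction with
      | base => rw [hk]
      | succ n hn ih =>
        rw [q_succ hp hs S0 n i k hn, hcJ]
        exact ih
    have h1 := hspec (Nat.pair i k)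
    rw [Nat.unpair_pair] at h1
    have h2 := key _ hle
    obtain ⟨t, ht⟩ := h1.con (by
      apply hc
      rw [map_pow, h2, hy1]
      exact (hcz _).symm) (by
      rw [← hχL, h2, hy2])
    refine ⟨c (Nat.pair i k + 1) t, ?_⟩
    have h3 := congrArg (c (Nat.pair i k + 1)) ht
    rw [map_mul, map_mul, map_inv, hcJ, hcx] at h3
    rw [← h2]
    exact h3

/-- the starting object -/
theorem base_fr {p : ℕ} (hp : p.Prime) : ∃ χ : Multiplicative ℤ →* Multiplicative (ZMod p),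
    Fr p (Multiplicative.ofAdd (p : ℤ)) χ ∧
      χ (Multiplicative.ofAdd 1) = Multiplicative.ofAdd 1 := by
  let χ : Multiplicative ℤ →* Multiplicative (ZMod p) :=
    AddMonoidHom.toMultiplicative (Int.castAddHom (ZMod p))
  have hχ : ∀ i : ℤ, χ (Multiplicative.ofAdd i) = Multiplicative.ofAdd (i : ZMod p) := fun i => rfl
  have hpow : ∀ i k : ℤ, (Multiplicative.ofAdd i) ^ k = Multiplicative.ofAdd (k * i) := by
    intro i k
    rw [← ofAdd_zsmul, smul_eq_mul]
  refine ⟨χ, ⟨fun a => mul_comm _ _, ?_, ?_, ?_⟩, ?_⟩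
  · intro h
    obtain ⟨m, hm, h1⟩ := isOfFinOrder_iff_pow_eq_one.1 h
    rw [← zpow_natCast, hpow] at h1
    have h2 : (m : ℤ) * p = 0 := h1
    rcases mul_eq_zero.1 h2 with h3 | h3
    · omega
    · exact absurd (by exact_mod_cast h3) hp.ne_zero
  · rw [hχ, Int.cast_natCast, CharP.cast_eq_zero]
    rfl
  · intro a ha
    refine ⟨Multiplicative.toAdd a, ?_, ?_, ?_⟩
    · rw [hpow, ← zpow_natCast]
      conv_lhs => rw [← ofAdd_toAdd a]
      rw [hpow, mul_comm]
    · rintro ⟨l, hl⟩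
      apply ha
      refine ⟨l, ?_⟩
      show Multiplicative.ofAdd (p : ℤ) ^ l = a
      rw [hpow, mul_comm, ← hl]
      rfl
    · intro _
      exact hχ (Multiplicative.toAdd a)
  · rw [hχ, Int.cast_one]

theorem base_ob {p : ℕ} (hp : p.Prime) (hs : HS p) :
    ∃ (S : Ob p) (t : S.A), S.χ t = 1 ∧ t ∉ Subgroup.zpowers S.z := by
  obtain ⟨χ, hF, hχ1⟩ := base_fr hp
  set z : Multiplicative ℤ := Multiplicative.ofAdd (p : ℤ) with hz
  have hHD : HD z χ (Subgroup.zpowers z) (Subgroup.zpowers z) (MulEquiv.refl _) :=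
    { zC := Subgroup.mem_zpowers z
      fz := rfl
      fχ := fun _ => rfl
      mC := fun y hy hy2 => absurd hy hy2
      mX := fun y hy hy2 => absurd hy hy2
      mCX := fun y hy _ _ => hy }
  obtain ⟨A', iA', cA', z', χ', J, t', hJ, hF', hJz, hJχ, -, ht1, ht2⟩ :=
    hs (Multiplicative ℤ) z χ hF _ _ _ hHD
  refine ⟨{ A := A', z := z', x := J (Multiplicative.ofAdd 1), χ := χ', fr := hF',
            xp := ?_, chx := ?_ }, t', ht1, ht2⟩
  · rw [← map_pow, ← hJz, hz, ← ofAdd_nsmul]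
    congr 2
    simp
  · rw [hJχ, hχ1]

end Pool.Agent.TH68.FR
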