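import Mathlib
import Pool.Agent.TH54.BU.Defs
import Pool.Agent.Helper495.E97.Tree2

/-!
# Tree lengths and four point lengths

`PG G` is a pseudo length with the four point inequality; the lemmas are helper54's lemmas of
`BU/Local.lean`, with the same proofs. At the end a tree length which is invariant under a central
cyclic group of elliptic elements gives a `GH` structure on the quotient.
-/

set_option autoImplicit false

namespace Pool.Agent.TH68.FR

/-- a pseudo length with the four point inequality -/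
structure PG (G : Type*) [Group G] where
  len : G → ℕ
  D : ℕ
  len_one : len 1 = 0
  len_inv : ∀ g, len g⁻¹ = len g
  len_mul : ∀ g h, len (g * h) ≤ len g + len h
  fp' : ∀ u v w z : G, len (u⁻¹ * v) + len (w⁻¹ * z) ≤
      max (len (u⁻¹ * w) + len (v⁻¹ * z)) (len (u⁻¹ * z) + len (v⁻¹ * w)) + D

variable {G : Type*} [Group G]

/-- the left invariant distance -/
def PG.d (H : PG G) (u v : G) : ℕ := H.len (u⁻¹ * v)

theorem PG.d_self (H : PG G) (u : G) : H.d u u = 0 := by simp [PG.d, H.len_one]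

theorem PG.d_comm (H : PG G) (u v : G) : H.d u v = H.d v u := by
  unfold PG.d
  rw [← H.len_inv]
  congr 1
  group

theorem PG.d_tri (H : PG G) (u v w : G) : H.d u w ≤ H.d u v + H.d v w := by
  unfold PG.d
  have := H.len_mul (u⁻¹ * v) (v⁻¹ * w)
  rwa [show u⁻¹ * v * (v⁻¹ * w) = u⁻¹ * w by group] at this

theorem PG.d_mul (H : PG G) (g u v : G) : H.d (g * u) (g * v) = H.d u v := by
  unfold PG.d
  congr 1
  group

theorem PG.fp (H : PG G) (u v w z : G) : H.d u v + H.d w z ≤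
    max (H.d u w + H.d v z) (H.d u z + H.d v w) + H.D := H.fp' u v w z

theorem PG.fpor (H : PG G) (u v w z : G) :
    H.d u v + H.d w z ≤ H.d u w + H.d v z + H.D ∨ H.d u v + H.d w z ≤ H.d u z + H.d v w + H.D := by
  have := H.fp u v w z
  rcases le_total (H.d u w + H.d v z) (H.d u z + H.d v w) with h | h
  · right; rwa [max_eq_right h] at this
  · left; rwa [max_eq_left h] at this

/-- one-sided local to global estimate -/
theorem PG.lg_aux (H : PG G) (a : ℕ) (x : ℕ → G) (n : ℕ)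
    (h1 : ∀ i, i + 2 ≤ n → H.d (x i) (x (i + 1)) + H.d (x (i + 1)) (x (i + 2)) ≤
      H.d (x i) (x (i + 2)) + a)
    (h2 : ∀ i, i < n → a + 2 * H.D + 1 ≤ H.d (x i) (x (i + 1))) (m : ℕ) (hm : m + 1 ≤ n) :
    H.d (x 0) (x m) + H.d (x m) (x (m + 1)) ≤ H.d (x 0) (x (m + 1)) + a + H.D := by
  induction m with
  | zero =>
    rw [H.d_self]
    omega
  | succ m ih =>
    have i1 := ih (by omega)
    have i2 := h1 m (by omega)
    have i3 := h2 m (by omega)
    have i4 := H.fpor (x m) (x (m + 2)) (x 0) (x (m + 1))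
    rw [H.d_comm (x m) (x 0), H.d_comm (x (m + 2)) (x (m + 1)), H.d_comm (x (m + 2)) (x 0)] at i4
    rw [show m + 1 + 1 = m + 2 from rfl]
    omega

theorem PG.lg (H : PG G) (a : ℕ) (x : ℕ → G) (n : ℕ)
    (h1 : ∀ i, i + 2 ≤ n → H.d (x i) (x (i + 1)) + H.d (x (i + 1)) (x (i + 2)) ≤
      H.d (x i) (x (i + 2)) + a)
    (h2 : ∀ i, i < n → a + 2 * H.D + 1 ≤ H.d (x i) (x (i + 1))) :
    (∀ i ≤ n, H.d (x 0) (x i) + H.d (x i) (x n) ≤ H.d (x 0) (x n) + a + 2 * H.D) ∧
      n ≤ H.d (x 0) (x n) := by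
  have hA := H.lg_aux a x n h1 h2
  -- the reversed chain
  have hB : ∀ i, i + 1 ≤ n →
      H.d (x i) (x (i + 1)) + H.d (x (i + 1)) (x n) ≤ H.d (x i) (x n) + a + H.D := by
    intro i hi
    have key := H.lg_aux a (fun j => x (n - j)) n (by
      intro j hj
      have := h1 (n - (j + 2)) (by omega)
      rw [show n - (j + 2) + 1 = n - (j + 1) by omega, show n - (j + 2) + 2 = n - j by omega] at this
      rw [H.d_comm (x (n - j)) (x (n - (j + 1))), H.d_comm (x (n - (j + 1))) (x (n - (j + 2))),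
        H.d_comm (x (n - j)) (x (n - (j + 2)))]
      omega) (by
      intro j hj
      have := h2 (n - (j + 1)) (by omega)
      rw [show n - (j + 1) + 1 = n - j by omega] at this
      rw [H.d_comm]
      exact this) (n - (i + 1)) (by omega)
    beta_reduce at key
    rw [show n - (n - (i + 1)) = i + 1 by omega, show n - (n - (i + 1) + 1) = i by omega,
      show n - 0 = n from rfl, H.d_comm (x n), H.d_comm (x n), H.d_comm (x (i + 1)) (x i)] at key
    omega
  refine ⟨fun i hi => ?_, ?_⟩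
  · rcases hi.eq_or_lt with rfl | hi
    · rw [H.d_self]
      omega
    · have i1 := hA i (by omega)
      have i2 := hB i (by omega)
      have i3 := h2 i hi
      have i4 := H.fpor (x 0) (x (i + 1)) (x i) (x n)
      rw [H.d_comm (x (i + 1)) (x i)] at i4
      omega
  · have key : ∀ m, m ≤ n → m ≤ H.d (x 0) (x m) := by
      intro m
      induction m with
      | zero => intro _; exact Nat.zero_le _
      | succ m ih =>
        intro hm
        have i0 := ih (by omega)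
        have i1 := hA m hm
        have i2 := h2 m (by omega)
        omega
    exact key n le_rfl

/-- transport of an almost geodesic triple -/
theorem PG.tr1 (H : PG G) {a b a' x : G} {c r : ℕ} (h : H.d a x + H.d x b ≤ H.d a b + c)
    (hr : H.d a a' ≤ r) (hl : 2 * r + c + H.D < 2 * H.d a x) :
    H.d a' x + H.d x b ≤ H.d a' b + c + H.D := by
  have i1 := H.fpor a b a' x
  have i2 := H.d_tri a a' x
  rw [H.d_comm b x, H.d_comm b a'] at i1
  omega

/-- a translate of a point between `a` and `b` by an element which moves `a` and `b` little -/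
theorem PG.tr2 (H : PG G) {a b w t : G} {r : ℕ} (ht : H.d a t + H.d t b = H.d a b)
    (ha : H.d a (w * a) ≤ r) (hb : H.d b (w * b) ≤ r) (h1 : 2 * r + 2 * H.D < 2 * H.d a t)
    (h2 : 2 * r + 2 * H.D < 2 * H.d t b) :
    H.d a (w * t) + H.d (w * t) b ≤ H.d a b + 2 * H.D := by
  have e1 : H.d (w * a) (w * t) = H.d a t := H.d_mul _ _ _
  have e2 : H.d (w * t) (w * b) = H.d t b := H.d_mul _ _ _
  have e3 : H.d (w * a) (w * b) = H.d a b := H.d_mul _ _ _
  have i1 := H.tr1 (a := w * a) (b := w * b) (a' := a) (x := w * t) (c := 0) (r := r)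
    (by omega) (by rw [H.d_comm]; exact ha) (by omega)
  have i2 := H.tr1 (a := w * b) (b := a) (a' := b) (x := w * t) (c := H.D) (r := r)
    (by rw [H.d_comm (w * b) (w * t), H.d_comm (w * t) a, H.d_comm (w * b) a]; omega)
    (by rw [H.d_comm]; exact hb) (by rw [H.d_comm (w * b) (w * t)]; omega)
  rw [H.d_comm b (w * t), H.d_comm (w * t) a, H.d_comm b a] at i2
  omega

/-- two points close to a geodesic from `a` to `b` -/
theorem PG.nr (H : PG G) {a b x y : G} {c : ℕ} (hx : H.d a x + H.d x b ≤ H.d a b + c)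
    (hy : H.d a y + H.d y b ≤ H.d a b + c) :
    H.d x y + H.d a y ≤ H.d a x + c + H.D ∨ H.d x y + H.d a x ≤ H.d a y + c + H.D := by
  have i1 := H.fpor a b x y
  rw [H.d_comm b y, H.d_comm b x] at i1
  omega

/-- the shift lemma -/
theorem PG.sh (H : PG G) {a a' x y : G} (h1 : H.d a a' + H.d x y + H.D < H.d a x + H.d a' y)
    (h2 : H.d a a' + H.d x y + H.D < H.d a y + H.d a' x) :
    H.d a x + H.d a' y ≤ H.d a y + H.d a' x + H.D ∧
      H.d a y + H.d a' x ≤ H.d a x + H.d a' y + H.D := by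
  have i1 := H.fpor a x a' y
  have i2 := H.fpor a y a' x
  rw [H.d_comm x a'] at i1
  rw [H.d_comm y x, H.d_comm y a'] at i2
  omega

theorem PG.disp_mul (H : PG G) (a u v : G) : H.d a (u * v * a) ≤ H.d a (u * a) + H.d a (v * a) := by
  have h := H.d_tri a (u * a) (u * v * a)
  rw [mul_assoc, H.d_mul, ← mul_assoc] at h
  exact h

theorem PG.disp_inv (H : PG G) (a u : G) : H.d a (u⁻¹ * a) = H.d a (u * a) := by
  have h := H.d_mul u a (u⁻¹ * a)
  rw [mul_inv_cancel_left, H.d_comm] at h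
  exact h.symm

/-- moving an element to the other side -/
theorem PG.mv (H : PG G) (a g x : G) : H.d a (g * x) = H.d (g⁻¹ * a) x := by
  have h := H.d_mul g (g⁻¹ * a) x
  rw [mul_inv_cancel_left] at h
  exact h

theorem PG.ts (H : PG G) {a b g t : G} {R : ℕ} (ha : H.d a (g * a) ≤ R) (hb : H.d b (g * b) ≤ R)
    (ht : H.d a t + H.d t b = H.d a b) (h1 : 2 * R + 10 * H.D + 10 ≤ H.d a t)
    (h2 : 2 * R + 10 * H.D + 10 ≤ H.d t b) :
    H.d t (g * t) ≤ 10 * H.D ∨ ∀ n : ℕ, n ≤ H.d t (g ^ n * t) := by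
  rcases Nat.lt_or_ge (H.d t (g * t)) (7 * H.D + 2 * H.D + 1) with h9 | h9
  · left; omega
  right
  have ha2 := H.disp_mul a g g
  have hb2 := H.disp_mul b g g
  have p0 : H.d a t + H.d t b ≤ H.d a b + 2 * H.D := by omega
  have p1 := H.tr2 (w := g) (r := 2 * R) ht (by omega) (by omega) (by omega) (by omega)
  have p2 := H.tr2 (w := g * g) (r := 2 * R) ht (by omega) (by omega) (by omega) (by omega)
  have n01 := H.nr p0 p1
  have e1 : H.d a (g * t) = H.d (g⁻¹ * a) t := H.mv a g t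
  have e2 : H.d a (g * g * t) = H.d (g⁻¹ * a) (g * t) := by rw [mul_assoc]; exact H.mv a g (g * t)
  have e3 := H.disp_inv a g
  have t1 := H.d_tri a (g⁻¹ * a) t
  have t2 := H.d_tri (g⁻¹ * a) a t
  rw [H.d_comm (g⁻¹ * a) a] at t2
  have s1 := H.sh (a := a) (a' := g⁻¹ * a) (x := t) (y := g * t) (by omega) (by omega)
  have t3 := H.d_tri a t (g * g * t)
  have t4 := H.d_tri a (g * g * t) t
  rw [H.d_comm (g * g * t) t] at t4
  -- the chain `g ^ i * t`
  have c1 : H.d t (g * t) + H.d t (g * t) ≤ H.d t (g * g * t) + 7 * H.D := by omega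
  intro n
  have key := H.lg (7 * H.D) (fun i => g ^ i * t) n (by
    intro i _
    rw [pow_succ, pow_succ, pow_succ, mul_assoc (g ^ i) g t, mul_assoc (g ^ i) g g,
      mul_assoc (g ^ i) (g * g) t, H.d_mul, H.d_mul, H.d_mul,
      mul_assoc g g t, H.d_mul, ← mul_assoc]
    exact c1) (by
    intro i _
    rw [pow_succ, mul_assoc, H.d_mul]
    exact h9)
  simpa using key.2

theorem PG.cm (H : PG G) {a b g h t : G} {R : ℕ} (ha : H.d a (g * a) ≤ R)
    (hb : H.d b (g * b) ≤ R) (ha' : H.d a (h * a) ≤ R) (hb' : H.d b (h * b) ≤ R)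
    (ht : H.d a t + H.d t b = H.d a b) (h1 : 4 * R + 10 * H.D + 1 ≤ H.d a t)
    (h2 : 4 * R + 10 * H.D + 1 ≤ H.d t b) :
    H.d t (g * h * g⁻¹ * h⁻¹ * t) ≤ 10 * H.D := by
  have iga := H.disp_inv a g
  have igb := H.disp_inv b g
  have iha := H.disp_inv a h
  have ihb := H.disp_inv b h
  -- displacements
  have a1 := H.disp_mul a g⁻¹ h⁻¹
  have b1 := H.disp_mul b g⁻¹ h⁻¹
  have a2 := H.disp_mul a (h * g⁻¹) h⁻¹
  have b2 := H.disp_mul b (h * g⁻¹) h⁻¹
  have a3 := H.disp_mul a h g⁻¹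
  have b3 := H.disp_mul b h g⁻¹
  have a4 := H.disp_mul a (g * h * g⁻¹) h⁻¹
  have b4 := H.disp_mul b (g * h * g⁻¹) h⁻¹
  have a5 := H.disp_mul a (g * h) g⁻¹
  have b5 := H.disp_mul b (g * h) g⁻¹
  have a6 := H.disp_mul a g h
  have b6 := H.disp_mul b g h
  -- the points `x`, `gx`, `hx`, `ghx`, `hgx = t`
  have px := H.tr2 (w := g⁻¹ * h⁻¹) (r := 4 * R) ht (by omega) (by omega) (by omega) (by omega)
  have pgx := H.tr2 (w := h⁻¹) (r := 4 * R) ht (by omega) (by omega) (by omega) (by omega)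
  have phx := H.tr2 (w := h * g⁻¹ * h⁻¹) (r := 4 * R) ht (by omega) (by omega) (by omega) (by omega)
  have pghx := H.tr2 (w := g * h * g⁻¹ * h⁻¹) (r := 4 * R) ht (by omega) (by omega) (by omega)
    (by omega)
  have pt : H.d a t + H.d t b ≤ H.d a b + 2 * H.D := by omega
  have nhx := H.nr px phx
  have ngx := H.nr px pgx
  have nfin := H.nr pt pghx
  -- moving
  have m1 : H.d a (h⁻¹ * t) = H.d (g⁻¹ * a) (g⁻¹ * h⁻¹ * t) := by
    rw [mul_assoc, H.d_mul]
  have m2 : H.d a (g * h * g⁻¹ * h⁻¹ * t) = H.d (g⁻¹ * a) (h * g⁻¹ * h⁻¹ * t) := by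
    rw [← H.mv]
    congr 1
    group
  have m3 : H.d a (h * g⁻¹ * h⁻¹ * t) = H.d (h⁻¹ * a) (g⁻¹ * h⁻¹ * t) := by
    rw [← H.mv]
    congr 1
    group
  have m4 : H.d a t = H.d (h⁻¹ * a) (h⁻¹ * t) := by
    rw [H.d_mul]
  -- distances to `a`
  have l1 : H.d a t ≤ H.d a (g⁻¹ * h⁻¹ * t) + 2 * R := by
    have e := H.mv a (g⁻¹ * h⁻¹) t
    have e2 := H.disp_inv a (g⁻¹ * h⁻¹)
    have e3 := H.d_tri a ((g⁻¹ * h⁻¹)⁻¹ * a) t
    omega
  have l2 : H.d a t ≤ H.d a (h⁻¹ * t) + R := by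
    have e := H.mv a h⁻¹ t
    have e2 := H.disp_inv a h⁻¹
    have e3 := H.d_tri a ((h⁻¹)⁻¹ * a) t
    omega
  have l3 : H.d a t ≤ H.d a (h * g⁻¹ * h⁻¹ * t) + 3 * R := by
    have e := H.mv a (h * g⁻¹ * h⁻¹) t
    have e2 := H.disp_inv a (h * g⁻¹ * h⁻¹)
    have e3 := H.d_tri a ((h * g⁻¹ * h⁻¹)⁻¹ * a) t
    omega
  -- triangle inequalities for the shifts
  have t1 := H.d_tri a (h⁻¹ * a) (g⁻¹ * h⁻¹ * t)
  have t2 := H.d_tri (h⁻¹ * a) a (g⁻¹ * h⁻¹ * t)
  rw [H.d_comm (h⁻¹ * a) a] at t2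
  have t3 := H.d_tri a (g⁻¹ * a) (g⁻¹ * h⁻¹ * t)
  have t4 := H.d_tri (g⁻¹ * a) a (g⁻¹ * h⁻¹ * t)
  rw [H.d_comm (g⁻¹ * a) a] at t4
  have s1 := H.sh (a := a) (a' := g⁻¹ * a) (x := g⁻¹ * h⁻¹ * t) (y := h * g⁻¹ * h⁻¹ * t)
    (by omega) (by omega)
  have s2 := H.sh (a := a) (a' := h⁻¹ * a) (x := g⁻¹ * h⁻¹ * t) (y := h⁻¹ * t)
    (by omega) (by omega)
  omega


section tree

open Pool.Agent.Helper495.E97 Pool.Agent.TH54.BU

variable {E : Type} [Group E] (T : TreeLength E)

/-- the pseudo length of a tree length -/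
def treePG : PG E where
  len := T.L
  D := 0
  len_one := T.L_one
  len_inv := T.L_inv
  len_mul := T.L_mul_le
  fp' u v w z := by
    have h1 := T.hc (v⁻¹ * u) (w⁻¹ * u)
    have h2 := T.hc (w⁻¹ * u) (z⁻¹ * u)
    have h3 := T.hc (v⁻¹ * u) (z⁻¹ * u)
    have e1 : v⁻¹ * u * (w⁻¹ * u)⁻¹ = v⁻¹ * w := by group
    have e2 : w⁻¹ * u * (z⁻¹ * u)⁻¹ = w⁻¹ * z := by group
    have e3 : v⁻¹ * u * (z⁻¹ * u)⁻¹ = v⁻¹ * z := by group
    rw [e1] at h1
    rw [e2] at h2
    rw [e3] at h3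
    have i1 : T.L (u⁻¹ * v) = T.L (v⁻¹ * u) := by rw [← T.L_inv]; congr 1; group
    have i2 : T.L (u⁻¹ * w) = T.L (w⁻¹ * u) := by rw [← T.L_inv]; congr 1; group
    have i3 : T.L (u⁻¹ * z) = T.L (z⁻¹ * u) := by rw [← T.L_inv]; congr 1; group
    have h4 := T.ultra (w⁻¹ * u) (v⁻¹ * u) (z⁻¹ * u)
    rw [T.c_comm (w⁻¹ * u) (v⁻¹ * u)] at h4
    rw [i1, i2, i3]
    rcases min_choice (T.c (v⁻¹ * u) (w⁻¹ * u)) (T.c (v⁻¹ * u) (z⁻¹ * u)) with h | h <;>
      rw [h] at h4
    · refine le_trans ?_ (Nat.add_le_add_right (le_max_right _ _) 0)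
      omega
    · refine le_trans ?_ (Nat.add_le_add_right (le_max_left _ _) 0)
      omega

/-- initial segments -/
theorem exists_prefix : ∀ (n : ℕ) (g : E), T.L g = n → ∀ k, k ≤ n →
    ∃ h, T.L h = k ∧ T.L (h⁻¹ * g) + k = n := by
  intro n
  induction n with
  | zero =>
    intro g hg k hk
    obtain rfl : k = 0 := by omega
    exact ⟨1, T.L_one, by rw [inv_one, one_mul, hg]⟩
  | succ n ih =>
    intro g hg k hk
    rcases Nat.lt_or_ge n k with h | h
    · obtain rfl : k = n + 1 := by omega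
      exact ⟨g, hg, by rw [inv_mul_cancel, T.L_one]; omega⟩
    · obtain ⟨u, s, rfl, hs, hu⟩ := T.split g (by omega)
      obtain ⟨h, h1, h2⟩ := ih u (by omega) k h
      refine ⟨h, h1, ?_⟩
      have e : h⁻¹ * (u * s) = h⁻¹ * u * s := by group
      have a1 := T.L_mul_le (h⁻¹ * u) s
      have a2 := T.L_mul_le h (h⁻¹ * (u * s))
      rw [mul_inv_cancel_left] at a2
      rw [← e] at a1
      omega

variable {z : E}

/-- the hypotheses on the central element `z` -/
structure Ell (T : TreeLength E) (z : E) : Prop where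
  cen : ∀ a, a * z = z * a
  L0 : T.L z = 0
  tor : ∀ g, T.L g = 0 → ∃ n : ℕ, 0 < n ∧ g ^ n ∈ Subgroup.zpowers z
  acy : ∀ g p, T.L g = 0 → 2 ≤ T.L p → T.L (p * g * p⁻¹) = 0 → g ∈ Subgroup.zpowers z

variable {T}

theorem Ell.normal (h : Ell T z) : (Subgroup.zpowers z).Normal := by
  constructor
  rintro _ ⟨k, rfl⟩ g
  refine ⟨k, ?_⟩
  have : Commute g (z ^ k) := (show Commute g z from h.cen g).zpow_right k
  show z ^ k = g * z ^ k * g⁻¹
  rw [this.eq, mul_assoc, mul_inv_cancel, mul_one]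

theorem Ell.Lz (h : Ell T z) (k : ℤ) : T.L (z ^ k) = 0 := by
  have h1 : ∀ n : ℕ, T.L (z ^ n) = 0 := by
    intro n
    induction n with
    | zero => rw [pow_zero]; exact T.L_one
    | succ n ih =>
      have := T.L_mul_le (z ^ n) z
      rw [← pow_succ, ih, h.L0] at this
      omega
  rcases Int.eq_nat_or_neg k with ⟨n, rfl | rfl⟩
  · rw [zpow_natCast]; exact h1 n
  · rw [zpow_neg, T.L_inv, zpow_natCast]; exact h1 n

theorem Ell.L_mul (h : Ell T z) {g g' : E} (hg : g⁻¹ * g' ∈ Subgroup.zpowers z) :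
    T.L g' = T.L g := by
  obtain ⟨k, hk⟩ := hg
  have hk' : z ^ k = g⁻¹ * g' := hk
  have e : g' = g * z ^ k := by rw [hk', mul_inv_cancel_left]
  rw [e]
  exact T.L_mul_right0 (h.Lz k) g

theorem Ell.conj (h : Ell T z) (g : E) (k : ℤ) : g * z ^ k * g⁻¹ = z ^ k := by
  have : Commute g (z ^ k) := (show Commute g z from h.cen g).zpow_right k
  rw [this.eq, mul_assoc, mul_inv_cancel, mul_one]

theorem Ell.mem_conj (h : Ell T z) {g t : E} (hg : t * g * t⁻¹ ∈ Subgroup.zpowers z) :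
    g ∈ Subgroup.zpowers z := by
  obtain ⟨k, hk⟩ := hg
  have hk' : z ^ k = t * g * t⁻¹ := hk
  refine ⟨k, ?_⟩
  show z ^ k = g
  rw [← h.conj t⁻¹ k, hk']
  group

/-- elements which fix two points at distance at least `2` are central -/
theorem Ell.fix (h : Ell T z) {g a b : E} (hab : 2 ≤ T.L (a⁻¹ * b)) (ha : T.L (a⁻¹ * g * a) = 0)
    (hb : T.L (b⁻¹ * g * b) = 0) : g ∈ Subgroup.zpowers z := by
  have h1 := h.acy (a⁻¹ * g * a) (b⁻¹ * a) ha (by
    rw [← T.L_inv]
    have : (b⁻¹ * a)⁻¹ = a⁻¹ * b := by group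
    rwa [this]) (by
    have : b⁻¹ * a * (a⁻¹ * g * a) * (b⁻¹ * a)⁻¹ = b⁻¹ * g * b := by group
    rwa [this])
  apply h.mem_conj (t := a⁻¹)
  rwa [inv_inv]

open Classical in
/-- the length on the quotient -/
noncomputable def qlen (T : TreeLength E) (N : Subgroup E) (q : E ⧸ N) : ℕ :=
  if q = (1 : E) then 0 else max (T.L q.out) 1

theorem qlen_one : qlen T (Subgroup.zpowers z) ((1 : E) : E ⧸ Subgroup.zpowers z) = 0 := by
  simp [qlen]

theorem L_out (h : Ell T z) (g : E) :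
    T.L ((g : E ⧸ Subgroup.zpowers z)).out = T.L g := by
  apply h.L_mul
  rw [← QuotientGroup.eq]
  exact (QuotientGroup.out_eq' _).symm

theorem qlen_of_not (h : Ell T z) {g : E} (hg : g ∉ Subgroup.zpowers z) :
    qlen T (Subgroup.zpowers z) (g : E ⧸ Subgroup.zpowers z) = max (T.L g) 1 := by
  have hn := h.normal
  have h1 : (g : E ⧸ Subgroup.zpowers z) ≠ (1 : E) := by
    intro h2
    apply hg
    have := QuotientGroup.eq.1 h2.symm
    simpa using this
  rw [qlen, if_neg h1, L_out h g]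

theorem qlen_of_mem {g : E} (hg : g ∈ Subgroup.zpowers z) :
    qlen T (Subgroup.zpowers z) (g : E ⧸ Subgroup.zpowers z) = 0 := by
  have h1 : (g : E ⧸ Subgroup.zpowers z) = (1 : E) := by
    apply Eq.symm
    rw [QuotientGroup.eq]
    simpa using hg
  simp [qlen, h1]

theorem le_qlen (h : Ell T z) (g : E) :
    T.L g ≤ qlen T (Subgroup.zpowers z) (g : E ⧸ Subgroup.zpowers z) := by
  by_cases hg : g ∈ Subgroup.zpowers z
  · obtain ⟨k, hk⟩ := hg
    rw [← show z ^ k = g from hk, h.Lz]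
    exact Nat.zero_le _
  · rw [qlen_of_not h hg]
    exact le_max_left _ _

theorem qlen_le (h : Ell T z) (g : E) :
    qlen T (Subgroup.zpowers z) (g : E ⧸ Subgroup.zpowers z) ≤ max (T.L g) 1 := by
  by_cases hg : g ∈ Subgroup.zpowers z
  · rw [qlen_of_mem hg]
    exact Nat.zero_le _
  · rw [qlen_of_not h hg]

theorem qlen_inv (h : Ell T z) (g : E) :
    qlen T (Subgroup.zpowers z) (g⁻¹ : E) = qlen T (Subgroup.zpowers z) (g : E) := by
  by_cases hg : g ∈ Subgroup.zpowers z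
  · rw [qlen_of_mem hg, qlen_of_mem (Subgroup.inv_mem _ hg)]
  · rw [qlen_of_not h hg, qlen_of_not h (fun h' => hg (by simpa using Subgroup.inv_mem _ h')),
      T.L_inv]

theorem qlen_mul (h : Ell T z) (g g' : E) :
    qlen T (Subgroup.zpowers z) (g * g' : E) ≤
      qlen T (Subgroup.zpowers z) (g : E) + qlen T (Subgroup.zpowers z) (g' : E) := by
  by_cases hg : g ∈ Subgroup.zpowers z
  · by_cases hg' : g' ∈ Subgroup.zpowers z
    · rw [qlen_of_mem (Subgroup.mul_mem _ hg hg')]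
      exact Nat.zero_le _
    · obtain ⟨k, hk⟩ := hg
      have e1 : T.L (g * g') = T.L g' := T.L_mul_left0 (by rw [← show z ^ k = g from hk, h.Lz]) g'
      have a1 := qlen_le h (g * g')
      rw [qlen_of_not h hg']
      omega
  · by_cases hg' : g' ∈ Subgroup.zpowers z
    · obtain ⟨k, hk⟩ := hg'
      have e1 : T.L (g * g') = T.L g := T.L_mul_right0 (by rw [← show z ^ k = g' from hk, h.Lz]) g
      have a1 := qlen_le h (g * g')
      rw [qlen_of_not h hg]
      omega
    · have a1 := qlen_le h (g * g')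
      rw [qlen_of_not h hg, qlen_of_not h hg']
      have := T.L_mul_le g g'
      omega

/-- the hyperbolic length on the quotient by `⟨z⟩` -/
noncomputable def treeGH (h : Ell T z) [(Subgroup.zpowers z).Normal] :
    GH (E ⧸ Subgroup.zpowers z) where
  len := qlen T (Subgroup.zpowers z)
  D := 4
  len_one := qlen_one
  eq_one := by
    intro g hg
    obtain ⟨g, rfl⟩ := QuotientGroup.mk_surjective g
    by_contra hne
    rw [qlen_of_not h (fun h' => hne ((QuotientGroup.eq_one_iff g).2 h'))] at hg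
    omega
  len_inv := by
    intro g
    obtain ⟨g, rfl⟩ := QuotientGroup.mk_surjective g
    exact qlen_inv h g
  len_mul := by
    intro g g'
    obtain ⟨g, rfl⟩ := QuotientGroup.mk_surjective g
    obtain ⟨g', rfl⟩ := QuotientGroup.mk_surjective g'
    exact qlen_mul h g g'
  fp' := by
    intro u v w x
    obtain ⟨u, rfl⟩ := QuotientGroup.mk_surjective u
    obtain ⟨v, rfl⟩ := QuotientGroup.mk_surjective v
    obtain ⟨w, rfl⟩ := QuotientGroup.mk_surjective w
    obtain ⟨x, rfl⟩ := QuotientGroup.mk_surjective x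
    have key := (treePG T).fp' u v w x
    have e : (treePG T).D = 0 := rfl
    rw [e] at key
    have el : (treePG T).len = T.L := rfl
    rw [el] at key
    have a1 := qlen_le h (u⁻¹ * v)
    have a2 := qlen_le h (w⁻¹ * x)
    have a3 := le_qlen h (u⁻¹ * w)
    have a4 := le_qlen h (v⁻¹ * x)
    have a5 := le_qlen h (u⁻¹ * x)
    have a6 := le_qlen h (v⁻¹ * w)
    simp only [← QuotientGroup.mk_inv, ← QuotientGroup.mk_mul]
    omega
  step := by
    intro g k hk
    obtain ⟨g, rfl⟩ := QuotientGroup.mk_surjective g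
    rcases Nat.eq_zero_or_pos k with rfl | hk0
    · refine ⟨1, qlen_one, ?_⟩
      rw [inv_one, one_mul, add_zero]
    have hg : g ∉ Subgroup.zpowers z := by
      intro h'
      rw [qlen_of_mem h'] at hk
      omega
    rw [qlen_of_not h hg] at hk ⊢
    rcases Nat.lt_or_ge k (max (T.L g) 1) with hlt | hge
    · obtain ⟨p, h1, h2⟩ := exists_prefix T (T.L g) g rfl k (by omega)
      refine ⟨(p : E), ?_, ?_⟩
      · rw [qlen_of_not h, h1]
        · omega
        · rintro ⟨j, hj⟩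
          rw [← show z ^ j = p from hj, h.Lz] at h1
          omega
      · rw [← QuotientGroup.mk_inv, ← QuotientGroup.mk_mul, qlen_of_not h]
        · omega
        · rintro ⟨j, hj⟩
          rw [← show z ^ j = p⁻¹ * g from hj, h.Lz] at h2
          omega
    · refine ⟨(g : E), ?_, ?_⟩
      · rw [qlen_of_not h hg]
        omega
      · rw [inv_mul_cancel, show ((1 : E ⧸ Subgroup.zpowers z)) = ((1 : E) : E ⧸ Subgroup.zpowers z)
          from rfl, qlen_one]
        omega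

theorem treeGH_len (h : Ell T z) [(Subgroup.zpowers z).Normal] (g : E) :
    (treeGH h).len (g : E ⧸ Subgroup.zpowers z) = qlen T (Subgroup.zpowers z) (g : E) := rfl

/-- the translation length -/
theorem le_L_pow {g k : E} (hk : T.CR (k * g * k⁻¹)) (m : ℕ) : m ≤ T.L (g ^ m) := by
  by_contra hlt
  push Not at hlt
  have hpos := hk.1
  set x := k * g * k⁻¹ with hx
  obtain ⟨n, hn⟩ : ∃ n, n = 2 * T.L k + 1 := ⟨_, rfl⟩
  have h1 : T.L (x ^ (m * n)) = m * n * T.L x := hk.pow T _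
  have h2 : x ^ (m * n) = k * (g ^ m) ^ n * k⁻¹ := by
    rw [hx, conj_pow, pow_mul]
  have h3 := T.L_mul_le (k * (g ^ m) ^ n) k⁻¹
  have h4 := T.L_mul_le k ((g ^ m) ^ n)
  have h5 : ∀ j : ℕ, T.L ((g ^ m) ^ j) ≤ j * T.L (g ^ m) := by
    intro j
    induction j with
    | zero => rw [pow_zero, T.L_one]; exact Nat.zero_le _
    | succ j ih =>
      rw [pow_succ]
      have := T.L_mul_le ((g ^ m) ^ j) (g ^ m)
      rw [Nat.succ_mul]
      omega
  have h6 := h5 n
  rw [← h2, h1, T.L_inv] at h3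
  have h7 : m * n ≤ m * n * T.L x := Nat.le_mul_of_pos_right _ hpos
  have h8 : n * T.L (g ^ m) ≤ n * (m - 1) := Nat.mul_le_mul_left _ (by omega)
  have h9 : n * (m - 1) + n = m * n := by
    obtain ⟨m', rfl⟩ : ∃ m', m = m' + 1 := ⟨m - 1, by omega⟩
    rw [Nat.add_sub_cancel]
    ring
  omega

/-- the conjugates of elliptic elements and the cyclically reduced elements -/
theorem fin_or (h : Ell T z) (g : E) :
    (∃ n : ℕ, 0 < n ∧ g ^ n ∈ Subgroup.zpowers z) ∨ ∃ k, T.CR (k * g * k⁻¹) := by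
  obtain ⟨k, hk | hk⟩ := T.exists_conj g
  · left
    obtain ⟨n, hn, h1⟩ := h.tor _ hk
    refine ⟨n, hn, ?_⟩
    rw [conj_pow] at h1
    exact h.mem_conj h1
  · exact Or.inr ⟨k, hk⟩

theorem fin_iff [(Subgroup.zpowers z).Normal] (g : E) :
    IsOfFinOrder (g : E ⧸ Subgroup.zpowers z) ↔ ∃ n : ℕ, 0 < n ∧ g ^ n ∈ Subgroup.zpowers z := by
  rw [isOfFinOrder_iff_pow_eq_one]
  constructor
  · rintro ⟨m, hm, h⟩
    refine ⟨m, hm, ?_⟩
    rwa [← QuotientGroup.mk_pow, QuotientGroup.eq_one_iff] at h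
  · rintro ⟨m, hm, h⟩
    refine ⟨m, hm, ?_⟩
    rwa [← QuotientGroup.mk_pow, QuotientGroup.eq_one_iff]

theorem treeGH_stab (h : Ell T z) [(Subgroup.zpowers z).Normal] : (treeGH h).Stab 1 := by
  intro g hg m
  obtain ⟨g, rfl⟩ := QuotientGroup.mk_surjective g
  rw [fin_iff] at hg
  rcases fin_or h g with h1 | ⟨k, hk⟩
  · exact absurd h1 hg
  · have h1 := le_L_pow hk m
    have h2 := le_qlen h (g ^ m)
    rw [one_mul, ← QuotientGroup.mk_pow, treeGH_len]
    omega

theorem treeGH_acy (h : Ell T z) [(Subgroup.zpowers z).Normal] (K B : ℕ) (hK : 500 ≤ K)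
    (hB : 8 * K + 20 ≤ B) : (treeGH h).Acy K B := by
  intro q hq
  obtain ⟨q, rfl⟩ := QuotientGroup.mk_surjective q
  rw [treeGH_len] at hq
  have hq1 := qlen_le h q
  have hq2 : B ≤ T.L q := by omega
  have hSD : ∀ g : E, (g : E ⧸ Subgroup.zpowers z) ∈ (treeGH h).SD K (q : E ⧸ Subgroup.zpowers z) →
      (treePG T).d 1 (g * 1) ≤ K ∧ (treePG T).d q (g * q) ≤ K := by
    rintro g ⟨g1, g2⟩
    rw [← QuotientGroup.mk_inv, ← QuotientGroup.mk_mul, ← QuotientGroup.mk_mul, treeGH_len] at g2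
    rw [treeGH_len] at g1
    have a1 := le_qlen h g
    have a2 := le_qlen h (q⁻¹ * g * q)
    refine ⟨?_, ?_⟩
    · show T.L (1⁻¹ * (g * 1)) ≤ K
      rw [inv_one, one_mul, mul_one]
      omega
    · show T.L (q⁻¹ * (g * q)) ≤ K
      rw [← mul_assoc]
      omega
  obtain ⟨t1, h11, h12⟩ := exists_prefix T (T.L q) q rfl (4 * K + 8) (by omega)
  have e11 : (treePG T).d 1 t1 = 4 * K + 8 := by
    show T.L (1⁻¹ * t1) = _
    rw [inv_one, one_mul, h11]
  have e12 : (treePG T).d t1 q + (4 * K + 8) = T.L q := h12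
  have e1q : (treePG T).d 1 q = T.L q := by
    show T.L (1⁻¹ * q) = _
    rw [inv_one, one_mul]
  obtain ⟨s, h21, h22⟩ := exists_prefix T (T.L (t1⁻¹ * q)) (t1⁻¹ * q) rfl 2 (by omega)
  have e21 : (treePG T).d t1 (t1 * s) = 2 := by
    show T.L (t1⁻¹ * (t1 * s)) = _
    rw [inv_mul_cancel_left, h21]
  have e22 : (treePG T).d (t1 * s) q + 2 = (treePG T).d t1 q := by
    show T.L ((t1 * s)⁻¹ * q) + 2 = T.L (t1⁻¹ * q)
    rw [show (t1 * s)⁻¹ * q = s⁻¹ * (t1⁻¹ * q) by group]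
    exact h22
  have t3 := (treePG T).d_tri 1 t1 (t1 * s)
  have t4 := (treePG T).d_tri 1 (t1 * s) q
  have hD : (treePG T).D = 0 := rfl
  have hfix : ∀ g : E, (treePG T).d t1 (g * t1) ≤ 0 → (treePG T).d (t1 * s) (g * (t1 * s)) ≤ 0 →
      g ∈ Subgroup.zpowers z := by
    intro g g1 g2
    refine h.fix (a := t1) (b := t1 * s) ?_ ?_ ?_
    · rw [inv_mul_cancel_left, h21]
    · have : T.L (t1⁻¹ * (g * t1)) ≤ 0 := g1
      rw [← mul_assoc] at this
      omega
    · have : T.L ((t1 * s)⁻¹ * (g * (t1 * s))) ≤ 0 := g2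
      rw [← mul_assoc] at this
      omega
  intro g hg
  obtain ⟨g, rfl⟩ := QuotientGroup.mk_surjective g
  obtain ⟨g1, g2⟩ := hSD g hg
  refine ⟨?_, ?_⟩
  · intro hf
    obtain ⟨n, hn, k, hk⟩ := (fin_iff g).1 hf
    have hk' : z ^ k = g ^ n := hk
    have hno : ∀ t : E, ¬ ∀ m : ℕ, m ≤ (treePG T).d t (g ^ m * t) := by
      intro t hall
      have h1 := hall n
      have h2 : (treePG T).d t (g ^ n * t) = 0 := by
        show T.L (t⁻¹ * (g ^ n * t)) = 0
        rw [← hk', ← mul_assoc]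
        have := h.conj t⁻¹ k
        rw [inv_inv] at this
        rw [this, h.Lz]
      omega
    rw [QuotientGroup.eq_one_iff]
    apply hfix
    · have := (treePG T).ts g1 g2 (t := t1) (by omega) (by omega) (by omega)
      rcases this with h1 | h1
      · rw [hD] at h1
        exact h1
      · exact absurd h1 (hno _)
    · have := (treePG T).ts g1 g2 (t := t1 * s) (by omega) (by omega) (by omega)
      rcases this with h1 | h1
      · rw [hD] at h1
        exact h1
      · exact absurd h1 (hno _)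
  · intro g' hg'
    obtain ⟨g', rfl⟩ := QuotientGroup.mk_surjective g'
    obtain ⟨g1', g2'⟩ := hSD g' hg'
    have c1 := (treePG T).cm g1 g2 g1' g2' (t := t1) (by omega) (by omega) (by omega)
    have c2 := (treePG T).cm g1 g2 g1' g2' (t := t1 * s) (by omega) (by omega) (by omega)
    rw [hD] at c1 c2
    have c3 := hfix _ c1 c2
    rw [← QuotientGroup.mk_mul, ← QuotientGroup.mk_mul]
    apply Eq.symm
    rw [QuotientGroup.eq]
    have hn := h.normal
    have := hn.conj_mem _ c3 (g' * g)⁻¹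
    rwa [show (g' * g)⁻¹ * (g * g' * g⁻¹ * g'⁻¹) * (g' * g)⁻¹⁻¹ = (g' * g)⁻¹ * (g * g') by
      group] at this

end tree

end Pool.Agent.TH68.FR
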